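import Pool.Agent.Work.MP_80ff4e_al_helper21.DC

/-!
Block C10.
-/

set_option autoImplicit false

namespace PCF

open scoped commutatorElement

variable {G X : Type} [Group G] [Fintype X] {S : SelfSim G X}

lemma gam_normal {J : Subgroup G} (hJ : J.Normal) (i : ℕ) : (gam J i).Normal := by
  induction i with
  | zero => exact hJ
  | succ i ih =>
    show (⁅gam J i, J⁆ : Subgroup G).Normal
    infer_instance

omit [Fintype X] in
/-- powers land in the sections of `N ⊓ B` -/
lemma pow_mem_secSub {N B : Subgroup G} {w : List X} (hN : S.secSub N w = ⊤) (hB : B.FiniteIndex) :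
    ∃ e : ℕ, 0 < e ∧ ∀ a : G, a ^ e ∈ S.secSub (N ⊓ B) w := by
  obtain ⟨e, he, hpow⟩ := exists_pow_mem_fi B hB
  refine ⟨e, he, fun a => ?_⟩
  have ha : a ∈ S.secSub N w := by rw [hN]; trivial
  obtain ⟨g, hg, h1, h2⟩ := S.mem_secSub.1 ha
  obtain ⟨h3, h4⟩ := wsec_pow h1 e
  exact S.mem_secSub.2 ⟨g ^ e, ⟨N.pow_mem hg e, hpow g⟩, h4, by rw [h3, h2]⟩

omit [Fintype X] in
lemma LSt_add {m n : ℕ} {g : G} (h1 : g ∈ S.LSt m) (h2 : ∀ v : List X, v.length = m → S.wsec g v ∈ S.LSt n) :
    g ∈ S.LSt (m + n) := by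
  intro w hw
  have e := List.take_append_drop m w
  have l1 : (w.take m).length = m := by rw [List.length_take]; omega
  have l2 : (w.drop m).length = n := by rw [List.length_drop]; omega
  rw [← e, S.wact_append, h1 _ l1, h2 _ l1 _ l2]

/-- BLOCK C10 -/
theorem stmt_C10 (hC0 : Stmt_C0) (hC3 : Stmt_C3) (hC5 : Stmt_C5) (hC8a : Stmt_C8a) (hC8b : Stmt_C8b)
    (hC9 : Stmt_C9) : Stmt_C10 := by
  classical
  intro G X _ _ S hS
  have cf := hS.cf hC0
  have hfg : Group.FG G := hS.fg
  obtain ⟨δ, hδ⟩ := hC9 G X S hS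
  obtain ⟨l, hl⟩ := hC8a G X S hS
  obtain ⟨-, n₁, hn₁⟩ := (hC3 G X S hS).1 (S.N l) (cf.nn l) (hC5 G X S hS l)
  let P : ℕ → Prop := fun c => ∀ m : ℕ, ∃ J : Subgroup G, J.Normal ∧ J.FiniteIndex ∧ gam J c ≤ S.N m
  have hP : ∃ c, P c := hC8b G X S hS
  rcases Nat.lt_or_ge (Nat.find hP) 2 with hc | hc
  · intro m
    obtain ⟨J, hJ1, hJ2, hJ3⟩ := Nat.find_spec hP m
    refine ⟨J, hJ1, hJ2, ?_⟩
    interval_cases h : Nat.find hP
    · exact (D2.gam_succ_le J 0).trans hJ3
    · exact hJ3
  exfalso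
  obtain ⟨c, hc'⟩ := Nat.exists_eq_add_of_le hc
  have hPc : P (c + 2) := by
    have := Nat.find_spec hP
    rwa [hc', add_comm] at this
  have hnot : ¬ P (c + 1) := Nat.find_min hP (by omega)
  simp only [P, not_forall, not_exists, not_and] at hnot
  obtain ⟨m₂, hm₂⟩ := hnot
  set m := max m₂ l with hm
  obtain ⟨J, hJn, hJf, hJc⟩ := hPc m
  have hJfg : J.FG := (Group.fg_iff_subgroup_fg J).1 (Subgroup.fg_of_index_ne_zero J)
  have hNm : (S.N m).Normal := cf.nn m
  -- the main claim
  have claimA : ∀ lam : G → ℚ, AddOn (gam J (c + 1)) lam →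
      (∀ x ∈ gam J (c + 1), x ∈ S.N m → lam x = 0) → ∀ x ∈ gam J (c + 1), lam x = 0 := by
    intro lam hlam1 hlam2
    have hlam3 : ∀ x ∈ gam J (c + 2), lam x = 0 := fun x hx =>
      hlam2 x (D2.gam_succ_le J _ hx) (hJc hx)
    -- C8a
    have hC8 : ∀ x ∈ gam J c, ∀ h ∈ J, h ∈ S.N l → lam ⁅x, h⁆ = 0 := by
      intro x hx h hhJ hhl
      obtain ⟨ψ, hψ1, hψ2, hψ3⟩ := vextend J hJf (fun a => lam ⁅x, a⁆) (GT.right hlam1 hlam3 hx)
      have h1 : ∀ b ∈ S.N m, ψ b = 0 := by
        apply hψ3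
        intro b hb hbN
        apply hlam2 _ (D2.comm_mem_gam hx hb)
        rw [commutatorElement_def]
        exact (S.N m).mul_mem (hNm.conj_mem b hbN x) ((S.N m).inv_mem hbN)
      have h2 := hl m ψ hψ1 h1 h hhl
      rwa [hψ2 h hhJ] at h2
    -- first decomposition
    obtain ⟨J', hJ'n, hJ'f, hJ'c⟩ := hPc (m + n₁)
    obtain ⟨mu, hmu1, hmu2, hmu3⟩ := decomp cf (c + 1) m n₁ J J' hJ'c lam hlam1 hlam2
    have hmu4 : ∀ w : List X, ∀ x ∈ gam J' (c + 2), mu w x = 0 := fun w x hx =>
      hmu2 w x (D2.gam_succ_le J' _ hx) (hJ'c hx)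
    -- second decomposition
    obtain ⟨J'', hJ''n, hJ''f, hJ''c⟩ := hPc (m + n₁ + δ)
    choose nu hnu1 hnu2 hnu3 using fun w : List X =>
      decomp cf (c + 1) (m + n₁) δ J' J'' hJ''c (mu w) (hmu1 w) (hmu2 w)
    have hnu4 : ∀ w u : List X, ∀ x ∈ gam J'' (c + 2), nu w u x = 0 := fun w u x hx =>
      hnu2 w u x (D2.gam_succ_le J'' _ hx) (hJ''c hx)
    set S₁ := J ⊓ LStJ S n₁ J' with hS₁
    set S₂ := J' ⊓ LStJ S δ J'' with hS₂
    have hS₂n : S₂.Normal := by
      have := LStJ_normal (S := S) (n := δ) hJ''n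
      exact inferInstance
    have hS₂f : S₂.FiniteIndex := by
      have := LStJ_fi S (cf.lfi δ) cf.sfi hJ''f
      exact inferInstance
    set S₀ := S₁ ⊓ LStJ S n₁ S₂ with hS₀
    have hS₁f : S₁.FiniteIndex := by
      have := LStJ_fi S (cf.lfi n₁) cf.sfi hJ'f
      exact inferInstance
    have hS₀f : S₀.FiniteIndex := by
      have := LStJ_fi S (cf.lfi n₁) cf.sfi hS₂f
      exact inferInstance
    have hS₀L : S₀ ≤ S.LSt n₁ := fun a ha => ha.2.1
    have hS₂L : S₂ ≤ S.LSt δ := fun a ha => ha.2.1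
    have hS₀s : ∀ v : List X, v.length = n₁ → ∀ a ∈ S₀, S.wsec a v ∈ S₂ := fun v hv a ha => ha.2.2 v hv
    have hS₂s : ∀ v : List X, v.length = δ → ∀ a ∈ S₂, S.wsec a v ∈ J'' := fun v hv a ha => ha.2.2 v hv
    -- total decomposition on `S₀`
    have htotal : ∀ y ∈ gam S₀ (c + 1), lam y =
        ∑ w ∈ lev X n₁, ∑ u ∈ lev X δ, nu w u (S.wsec (S.wsec y w) u) := by
      intro y hy
      rw [hmu3 y (GT.gam_mono inf_le_left _ hy)]
      apply Finset.sum_congr rfl
      intro w hw
      rw [mem_lev] at hw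
      exact hnu3 w _ (GT.wsec_gam S hS₀L hw (hS₀s w hw) _ y hy)
    -- Claim C
    have claimC : ∀ w : List X, w.length = n₁ → ∀ L : List G, L.length = c → (∀ a ∈ L, a ∈ S₀) →
        ∀ h ∈ S₀, h ∈ S.N l → ∀ g ∈ S₂,
          mu w ⁅GT.lc g (L.map fun a => S.wsec a w), S.wsec h w⁆ = 0 := by
      intro w hw L hLc hLS h hh hhl g hg
      -- the additive functions
      let F : List X → G → ℚ := fun W g' =>
        nu (W.take n₁) (W.drop n₁) (GT.lc g' ((L ++ [h]).map fun a => S.wsec a W))
      have hlen : ∀ W : List X, W.length = n₁ + δ → (W.take n₁).length = n₁ ∧ (W.drop n₁).length = δ := by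
        intro W hW
        rw [List.length_take, List.length_drop]
        omega
      have hLh : ∀ a ∈ L ++ [h], a ∈ S₀ := by
        intro a ha
        rw [List.mem_append, List.mem_singleton] at ha
        rcases ha with ha | rfl
        · exact hLS a ha
        · exact hh
      have hsecW : ∀ W : List X, ∀ a, S.wsec a W = S.wsec (S.wsec a (W.take n₁)) (W.drop n₁) := by
        intro W a
        rw [← S.wsec_append, List.take_append_drop]
      have hF : ∀ W : List X, W.length = n₁ + δ → AddOn J'' (F W) := by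
        intro W hW
        obtain ⟨l1, l2⟩ := hlen W hW
        apply GT.lc_add J'' (c + 1) _ (hnu1 _ _) (hnu4 _ _)
        · simp [hLc]
        · intro b hb
          rw [List.mem_map] at hb
          obtain ⟨a, ha, rfl⟩ := hb
          rw [hsecW]
          exact hS₂s _ l2 _ (hS₀s _ l1 _ (hLh a ha))
      have hex : ∀ W : List X, ∃ ψ : G → ℚ, IsVHom ψ ∧ (W.length = n₁ + δ → ∀ a ∈ J'', ψ a = F W a) := by
        intro W
        by_cases hW : W.length = n₁ + δ
        · obtain ⟨ψ, h1, h2⟩ := isVHom_extend J'' hJ''f (F W) (hF W hW)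
          exact ⟨ψ, h1, fun _ => h2⟩
        · exact ⟨fun _ => 0, isVHom_zero, fun h => absurd h hW⟩
      choose ζ hζ1 hζ2 using hex
      -- the relation
      have hrel : Rel S (n₁ + δ) ζ := by
        refine ⟨hζ1, rel_of_fi (fun v _ => hζ1 v) S₀ hS₀f ?_⟩
        intro g' _ hg'
        have e1 : ∀ W ∈ lev X (n₁ + δ), ζ W (S.wsec g' W) =
            nu (W.take n₁) (W.drop n₁) (S.wsec (GT.lc g' (L ++ [h])) W) := by
          intro W hW
          rw [mem_lev] at hW
          obtain ⟨l1, l2⟩ := hlen W hW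
          have e0 : S.wsec g' W ∈ J'' := by
            rw [hsecW]
            exact hS₂s _ l2 _ (hS₀s _ l1 _ hg')
          rw [hζ2 W hW _ e0]
          simp only [F]
          congr 1
          have hAL : S₀ ≤ S.LSt (n₁ + δ) := fun a ha =>
            LSt_add (hS₀L ha) fun v hv => hS₂L (hS₀s v hv a ha)
          exact (GT.wsec_lc S hAL hW hg' (L ++ [h]) hLh).symm
        rw [Finset.sum_congr rfl e1, sum_lev_add]
        have hmem : GT.lc g' (L ++ [h]) ∈ gam S₀ (c + 1) := by
          have := GT.lc_mem hg' (L ++ [h]) hLh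
          simpa [hLc] using this
        have e2 : ∑ v ∈ lev X n₁, ∑ u ∈ lev X δ,
            nu ((v ++ u).take n₁) ((v ++ u).drop n₁) (S.wsec (GT.lc g' (L ++ [h])) (v ++ u)) =
            lam (GT.lc g' (L ++ [h])) := by
          rw [htotal _ hmem]
          apply Finset.sum_congr rfl
          intro v hv
          apply Finset.sum_congr rfl
          intro u _
          rw [mem_lev] at hv
          rw [← hv, List.take_left, List.drop_left, S.wsec_append]
        rw [e2, GT.lc_concat]
        have hSJ : S₀ ≤ J := fun a ha => ha.1.1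
        apply hC8 _ _ h (hSJ hh) hhl
        have := GT.lc_mem (hSJ hg') L (fun a ha => hSJ (hLS a ha))
        rwa [hLc] at this
      obtain ⟨-, hR⟩ := hδ n₁ ζ hrel w hw
      have h3 := hR g (hS₂L hg)
      -- identify the sum
      have hSw : ∀ a ∈ L ++ [h], S.wsec a w ∈ S₂ := fun a ha => hS₀s w hw a (hLh a ha)
      have hmem : GT.lc g ((L ++ [h]).map fun a => S.wsec a w) ∈ gam S₂ (c + 1) := by
        have := GT.lc_mem (J := S₂) hg ((L ++ [h]).map fun a => S.wsec a w) (by
          intro b hb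
          rw [List.mem_map] at hb
          obtain ⟨a, ha, rfl⟩ := hb
          exact hSw a ha)
        simpa [hLc] using this
      have h4 : mu w (GT.lc g ((L ++ [h]).map fun a => S.wsec a w)) = 0 := by
        rw [hnu3 w _ hmem, ← h3]
        apply Finset.sum_congr rfl
        intro u hu
        rw [mem_lev] at hu
        have hWl : (w ++ u).length = n₁ + δ := by rw [List.length_append, hw, hu]
        show _ = ζ (w ++ u) (S.wsec g u)
        rw [hζ2 (w ++ u) hWl _ (hS₂s u hu g hg)]
        simp only [F]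
        have t1 : (w ++ u).take n₁ = w := by rw [← hw, List.take_left]
        have t2 : (w ++ u).drop n₁ = u := by rw [← hw, List.drop_left]
        rw [t1, t2]
        congr 1
        rw [GT.wsec_lc S hS₂L hu hg _ (by
          intro b hb
          rw [List.mem_map] at hb
          obtain ⟨a, ha, rfl⟩ := hb
          exact hSw a ha), List.map_map]
        congr 1
        apply List.map_congr_left
        intro a _
        show S.wsec (S.wsec a w) u = S.wsec a (w ++ u)
        rw [S.wsec_append]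
      rw [List.map_append, List.map_singleton, GT.lc_concat] at h4
      exact h4
    -- Claim B
    have claimB : ∀ w : List X, w.length = n₁ → ∀ x ∈ gam J' (c + 1), mu w x = 0 := by
      intro w hw
      have hsur : S.secSub (S.N l) w = ⊤ := hn₁ w (by omega)
      obtain ⟨e₁, he₁, hpow₁⟩ := pow_mem_secSub hsur hS₀f
      obtain ⟨e₂, he₂, hpow₂⟩ := exists_pow_mem_fi S₂ hS₂f
      set S₃ := S₂ ⊓ S.secSub (S.N l ⊓ S₀) w with hS₃
      have hS₃J : S₃ ≤ J' := fun a ha => ha.1.1
      apply GT.zero_of_fi hS₃J (Nat.mul_pos he₁ he₂) _ (c + 1) (mu w) (hmu1 w) (hmu4 w)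
      · apply GT.zero_of_lc S₃ (c + 1) (mu w) ((hmu1 w).mono (GT.gam_mono hS₃J _))
          (fun x hx => hmu4 w x (GT.gam_mono hS₃J _ hx))
        intro g hg L hL hL3
        rcases List.eq_nil_or_concat L with rfl | ⟨L', a, rfl⟩
        · simp at hL
        · rw [List.concat_eq_append] at hL hL3 ⊢
          -- lift the entries
          have hlift : ∀ b, b ∈ L' ++ [a] → ∃ b', b' ∈ S.N l ⊓ S₀ ∧ S.wsec b' w = b := by
            intro b hb
            obtain ⟨b', h1, -, h2⟩ := S.mem_secSub.1 (hL3 b hb).2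
            exact ⟨b', h1, h2⟩
          choose! f hf1 hf2 using hlift
          have hLm : (L'.map f).map (fun a => S.wsec a w) = L' := by
            rw [List.map_map]
            conv_rhs => rw [← List.map_id L']
            apply List.map_congr_left
            intro b hb
            exact hf2 b (by simp [hb])
          have h5 := claimC w hw (L'.map f) (by simpa using hL) (by
            intro b hb
            rw [List.mem_map] at hb
            obtain ⟨b', hb', rfl⟩ := hb
            exact (hf1 b' (by simp [hb'])).2) (f a) (hf1 a (by simp)).2 (hf1 a (by simp)).1 g hg.1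
          rw [hLm, hf2 a (by simp)] at h5
          rw [GT.lc_concat]
          exact h5
      · intro a _
        refine ⟨?_, ?_⟩
        · rw [mul_comm, pow_mul]
          exact S₂.pow_mem (hpow₂ a) _
        · rw [pow_mul]
          exact (S.secSub (S.N l ⊓ S₀) w).pow_mem (hpow₁ a) _
    -- conclusion for `lam`
    obtain ⟨e, he, hpow⟩ := exists_pow_mem_fi S₁ hS₁f
    apply GT.zero_of_fi (S := S₁) inf_le_left he (fun a _ => hpow a) (c + 1) lam hlam1 hlam3
    intro x hx
    rw [hmu3 x hx]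
    apply Finset.sum_eq_zero
    intro w hw
    rw [mem_lev] at hw
    apply claimB w hw
    have hS₁L : S₁ ≤ S.LSt n₁ := fun a ha => ha.2.1
    have hS₁s : ∀ a ∈ S₁, S.wsec a w ∈ J' := fun a ha => ha.2.2 w hw
    exact GT.wsec_gam S hS₁L hw hS₁s _ x hx
  have hrel := GT.fin_quot hJfg (c + 1) (S.N m) hJc claimA
  obtain ⟨J', h1, h2, h3⟩ := GT.cent_fi hJfg hJf c (S.N m) hJc hrel
  exact hm₂ J' h1 h2 (h3.trans (cf.nle (le_max_left _ _)))

end PCF
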