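import Pool.Agent.Work.MP_80ff4e_al_helper21.DC

/-!
Block C8b.
-/

set_option autoImplicit false

namespace PCF

open scoped commutatorElement

variable {G X : Type} [Group G] [Fintype X] {S : SelfSim G X}

omit [Fintype X] in
/-- additivity of a virtual homomorphism of `H` killing `N` on pairs commuting mod `N` -/
lemma VOn.comm_mod {H N : Subgroup G} (hN : N.Normal) {φ : G → ℚ} (h : VOn H φ) (h0 : ∀ n ∈ N, φ n = 0)
    {a b : G} (ha : a ∈ H) (hb : b ∈ H) (hab : ⁅a, b⁆ ∈ N) : φ (a * b) = φ a + φ b :=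
  isVHom_comm_mod _ h (N.subgroupOf H) inferInstance (fun n hn => h0 n hn) ⟨a, ha⟩ ⟨b, hb⟩ hab

omit [Fintype X] in
lemma VOn.comm {H : Subgroup G} {φ : G → ℚ} (h : VOn H φ)
    {a b : G} (ha : a ∈ H) (hb : b ∈ H) (hab : a * b = b * a) : φ (a * b) = φ a + φ b :=
  isVHom_comm _ h ⟨a, ha⟩ ⟨b, hb⟩ (Subtype.ext hab)

omit [Fintype X] in
lemma VOn.pow {H : Subgroup G} {φ : G → ℚ} (h : VOn H φ) {a : G} (ha : a ∈ H) (n : ℕ) :
    φ (a ^ n) = n * φ a := h.1 ⟨a, ha⟩ n

omit [Fintype X] in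
/-- extension of additive functions to virtual homomorphisms of `H` -/
lemma extV {H N A M : Subgroup G} (hN : N.Normal) (_hAH : A ≤ H) (hAf : A.relIndex H ≠ 0)
    (hAA : ⁅A, A⁆ ≤ N) (hMH : M ≤ H) (f : G → ℚ) (hf : AddOn M f) (hf0 : ∀ x ∈ M, x ∈ N → f x = 0) :
    ∃ lam : G → ℚ, VOn H lam ∧ (∀ x ∈ H, x ∈ N → lam x = 0) ∧ ∀ x ∈ M, lam x = f x := by
  classical
  obtain ⟨mu, hmu1, hmu2, hmu3⟩ := GT.ext_family (ι := Unit) (M ⊓ A) A N hAA (fun _ x => x)
    (fun _ _ _ _ _ => rfl) (fun _ x hx => hx.2) f (hf.mono inf_le_left) (fun x hx h => hf0 x hx.1 (h ()))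
  have hfi : (A.subgroupOf H).FiniteIndex := ⟨hAf⟩
  obtain ⟨ψ, hψ1, hψ2, hψ3⟩ := vextend (A.subgroupOf H) hfi (fun h => mu () h)
    (fun a ha b hb => hmu1 () a ha b hb)
  obtain ⟨e, he, hpow⟩ := exists_pow_mem_fi (A.subgroupOf H) hfi
  refine ⟨fun g => if h : g ∈ H then ψ ⟨g, h⟩ else 0, ?_, ?_, ?_⟩
  · have : (fun h : H => (fun g => if h : g ∈ H then ψ ⟨g, h⟩ else 0) (h : G)) = ψ := by
      funext h
      simp
    show IsVHom (fun h : H => (fun g => if h : g ∈ H then ψ ⟨g, h⟩ else 0) (h : G))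
    rw [this]
    exact hψ1
  · intro x hx hxN
    simp only [hx, dif_pos]
    exact hψ3 (N.subgroupOf H) (fun a ha haN => hmu2 () a ha haN) ⟨x, hx⟩ hxN
  · intro x hx
    have hxH := hMH hx
    simp only [hxH, dif_pos]
    have h1 : (⟨x, hxH⟩ : H) ^ e ∈ A.subgroupOf H := hpow _
    have h2 : x ^ e ∈ A := h1
    have h3 := hψ2 _ h1
    have h4 : mu () (x ^ e) = f (x ^ e) := by
      have := hmu3 (x ^ e) ⟨M.pow_mem hx e, h2⟩
      rw [this]
      simp
    have h5 : ψ ((⟨x, hxH⟩ : H) ^ e) = e * f x := by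
      rw [h3]
      show mu () (x ^ e) = e * f x
      rw [h4, hf.pow hx]
    exact eq_of_pow he (hψ1.1 _) h5

/-- conjugation invariance of additive functions on normal subgroups -/
lemma inv_step (cf : CF S) {m₁ : ℕ}
    (hinv : ∀ m ≥ m₁, ∀ φ : G → ℚ, VOn (S.N m) φ → (∀ h ∈ S.N (m + 1), φ h = 0) →
      ∀ (g : G), ∀ h ∈ S.N m, φ (g * h * g⁻¹) = φ h)
    (hA : ∀ m ≥ m₁, ∃ A : Subgroup G, A.Normal ∧ A ≤ S.N m ∧ A.relIndex (S.N m) ≠ 0 ∧
      ⁅A, A⁆ ≤ S.N (m + 1))
    {Y J : Subgroup G} (hY : Y.Normal) (hJ : J.FiniteIndex) (hYN : Y ≤ S.N m₁) {n : ℕ} {f : G → ℚ}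
    (hf : AddOn Y f) (hf0 : ∀ x ∈ Y, x ∈ S.N n → f x = 0) (hfJ : ∀ j ∈ J, ∀ a ∈ Y, f (j * a * j⁻¹) = f a)
    (g : G) : ∀ a ∈ Y, f (g * a * g⁻¹) = f a := by
  obtain ⟨e, he, hpow⟩ := exists_pow_mem_fi J hJ
  set ξ : G → ℚ := fun a => f a - f (g * a * g⁻¹) with hξ
  have hξadd : AddOn Y ξ := by
    intro a ha b hb
    simp only [hξ]
    rw [hf a ha b hb, show g * (a * b) * g⁻¹ = (g * a * g⁻¹) * (g * b * g⁻¹) by group,
      hf _ (hY.conj_mem a ha g) _ (hY.conj_mem b hb g)]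
    ring
  have hξ0 : ∀ x ∈ Y, x ∈ S.N n → ξ x = 0 := by
    intro x hx hxN
    simp only [hξ]
    rw [hf0 x hx hxN, hf0 _ (hY.conj_mem x hx g) ((cf.nn n).conj_mem x hxN g), sub_zero]
  -- downward induction
  have key : ∀ d i : ℕ, i + d = max n m₁ → m₁ ≤ i → ∀ x ∈ Y, x ∈ S.N i → ξ x = 0 := by
    intro d
    induction d with
    | zero =>
      intro i hi _ x hx hxN
      exact hξ0 x hx (cf.nle (by rw [show i = max n m₁ by omega]; exact le_max_left _ _) hxN)
    | succ d ih =>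
      intro i hi him x hx hxN
      have hnext : ∀ x ∈ Y ⊓ S.N i, x ∈ S.N (i + 1) → ξ x = 0 := fun x hx hxN =>
        ih (i + 1) (by omega) (by omega) x hx.1 hxN
      obtain ⟨A, -, hA2, hA3, hA4⟩ := hA i him
      obtain ⟨lam, h1, h2, h3⟩ := extV (H := S.N i) (N := S.N (i + 1)) (A := A) (M := Y ⊓ S.N i)
        (cf.nn _) hA2 hA3 hA4 inf_le_right ξ (hξadd.mono inf_le_left) hnext
      have hξinv : ∀ g' : G, ∀ x ∈ Y ⊓ S.N i, ξ (g' * x * g'⁻¹) = ξ x := by
        intro g' x hx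
        rw [← h3 x hx, ← h3 (g' * x * g'⁻¹) ⟨hY.conj_mem x hx.1 g', (cf.nn i).conj_mem x hx.2 g'⟩]
        exact hinv i him lam h1 (fun h hh => h2 h (cf.nanti i hh) hh) g' x hx.2
      have hsum : ∀ r : ℕ, (r : ℚ) * ξ x = f x - f (g ^ r * x * (g ^ r)⁻¹) := by
        intro r
        induction r with
        | zero => simp
        | succ r ihr =>
          have h4 := hξinv (g ^ r) x ⟨hx, hxN⟩
          simp only [hξ] at h4
          have h5 : g * (g ^ r * x * (g ^ r)⁻¹) * g⁻¹ = g ^ (r + 1) * x * (g ^ (r + 1))⁻¹ := by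
            rw [pow_succ']; group
          rw [h5] at h4
          push_cast
          rw [add_mul, ihr, one_mul]
          simp only [hξ]
          linarith
      have h6 := hsum e
      rw [hfJ _ (hpow g) x hx, sub_self] at h6
      rcases mul_eq_zero.1 h6 with h7 | h7
      · exact absurd h7 (Nat.cast_ne_zero.2 he.ne')
      · exact h7
  intro a ha
  have := key (max n m₁ - m₁) m₁ (by have := le_max_right n m₁; omega) le_rfl a ha (hYN ha)
  simp only [hξ] at this
  linarith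

/-- BLOCK C8b -/
theorem stmt_C8b (hC0 : Stmt_C0) (hC3 : Stmt_C3) (hC5 : Stmt_C5) (hC7 : Stmt_C7) : Stmt_C8b := by
  classical
  intro G X _ _ S hS
  have cf := hS.cf hC0
  have hfg : Group.FG G := hS.fg
  obtain ⟨m₁, hm₁⟩ := hC7 G X S hS
  have hinv : ∀ m ≥ m₁, ∀ φ : G → ℚ, VOn (S.N m) φ → (∀ h ∈ S.N (m + 1), φ h = 0) →
      ∀ (g : G), ∀ h ∈ S.N m, φ (g * h * g⁻¹) = φ h := fun m hm => (hm₁ m hm).1
  have hA : ∀ m ≥ m₁, ∃ A : Subgroup G, A.Normal ∧ A ≤ S.N m ∧ A.relIndex (S.N m) ≠ 0 ∧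
      ⁅A, A⁆ ≤ S.N (m + 1) := fun m hm => (hm₁ m hm).2.1
  obtain ⟨x₀⟩ : Nonempty X := Fintype.card_pos_iff.1 (by have := cf.two_le; omega)
  let P : ℕ → ℕ → Prop := fun c m => ∃ J : Subgroup G, J.Normal ∧ J.FiniteIndex ∧ gam J c ≤ S.N m
  have hPex : ∀ m, ∃ c, P c m := by
    intro m
    obtain ⟨⟨J, h1, h2, r, h3⟩, -⟩ := (hC3 G X S hS).1 (S.N m) (cf.nn m) (hC5 G X S hS m)
    exact ⟨r, J, h1, h2, h3⟩
  have hPc : ∀ c c' m, c ≤ c' → P c m → P c' m := by
    intro c c' m hc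
    induction hc with
    | refl => exact id
    | step _ ih =>
      intro h
      obtain ⟨J, h1, h2, h3⟩ := ih h
      exact ⟨J, h1, h2, (D2.gam_succ_le J _).trans h3⟩
  -- the main step
  have main : ∀ k m : ℕ, m₁ + 1 ≤ m → P (k + 2) (m + 1) → P (k + 1) m → P k m₁ → P (k + 1) (m + 1) := by
    rintro k m hm ⟨J₁, a1, a2, a3⟩ ⟨J₂, b1, b2, b3⟩ ⟨J₃, c1, c2, c3⟩
    set J := J₁ ⊓ J₂ ⊓ J₃ with hJ
    have hJn : J.Normal := inferInstance
    have hJf : J.FiniteIndex := inferInstance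
    have hJ1 : gam J (k + 2) ≤ S.N (m + 1) := (GT.gam_mono (inf_le_left.trans inf_le_left) _).trans a3
    have hJ2 : gam J (k + 1) ≤ S.N m := (GT.gam_mono (inf_le_left.trans inf_le_right) _).trans b3
    have hJ3 : gam J k ≤ S.N m₁ := (GT.gam_mono inf_le_right _).trans c3
    obtain ⟨p, rfl⟩ : ∃ p, m = p + 1 := ⟨m - 1, by omega⟩
    have hp : m₁ ≤ p := by omega
    set A := J ⊓ LStJ S 1 J with hAdef
    have hAf : A.FiniteIndex := by
      have := LStJ_fi S (cf.lfi 1) cf.sfi hJf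
      exact inferInstance
    have hAn : A.Normal := by
      have := LStJ_normal (S := S) (n := 1) hJn
      exact inferInstance
    have hAL : A ≤ S.LSt 1 := fun a ha => ha.2.1
    have hAs : ∀ v : List X, v.length = 1 → ∀ a ∈ A, S.wsec a v ∈ J := fun v hv a ha => ha.2.2 v hv
    set J' := S.secSub A [x₀] with hJ'
    have hJ'n : J'.Normal := cf.secn A hAn _
    have hJ'f : J'.FiniteIndex := cf.secf A _ hAf
    have hJ'J : J' ≤ J := by
      intro z hz
      obtain ⟨a, ha, -, rfl⟩ := S.mem_secSub.1 hz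
      exact hAs _ rfl a ha
    -- every element of `V_m` kills `gam J' (k+1)`
    have kill : ∀ lam : G → ℚ, VOn (S.N (p + 1)) lam → (∀ h ∈ S.N (p + 2), lam h = 0) →
        ∀ x ∈ gam J' (k + 1), lam x = 0 := by
      intro lam hlam1 hlam2
      have hadd : AddOn (gam J (k + 1)) lam := by
        intro a ha b hb
        exact hlam1.comm_mod (cf.nn (p + 2)) hlam2 (hJ2 ha) (hJ2 hb)
          (hJ1 (D2.comm_mem_gam ha (D2.gam_le J _ hb)))
      have hkill : ∀ x ∈ gam J (k + 2), lam x = 0 := fun x hx => hlam2 x (hJ1 hx)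
      have hnk : (gam J k).Normal := by
        clear * - hJn
        induction k with
        | zero => exact hJn
        | succ i ih =>
          show (⁅gam J i, J⁆ : Subgroup G).Normal
          infer_instance
      -- invariance in the first variable
      have inv1 : ∀ b ∈ J, ∀ g : G, ∀ a ∈ gam J k, lam ⁅g * a * g⁻¹, b⁆ = lam ⁅a, b⁆ := by
        intro b hb g
        obtain ⟨h1, h2⟩ := GT.step hadd hkill hb
        apply inv_step cf hinv hA hnk hJf hJ3 (n := p + 2) h1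
        · intro x _ hxN
          show lam ⁅x, b⁆ = 0
          apply hlam2
          rw [commutatorElement_def, mul_assoc, mul_assoc]
          have := (cf.nn (p + 2)).conj_mem _ ((S.N (p + 2)).inv_mem hxN) b
          rw [mul_assoc] at this
          exact (S.N (p + 2)).mul_mem hxN this
        · intro j hj a ha
          show lam ⁅j * a * j⁻¹, b⁆ = lam ⁅a, b⁆
          have e : j * a * j⁻¹ = ⁅j, a⁆ * a := by rw [commutatorElement_def]; group
          have hja := GT.comm_left_mem hj ha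
          have h3 := h1 _ (D2.gam_succ_le J k hja) a ha
          simp only at h3
          rw [e, h3, h2 _ hja, zero_add]
      -- invariance of `lam`
      have inv0 : ∀ g : G, ∀ x ∈ S.N (p + 1), lam (g * x * g⁻¹) = lam x :=
        hinv (p + 1) (by omega) lam hlam1 hlam2
      -- homomorphisms in the second variable
      have hom2 : ∀ a ∈ gam J k, ∃ ψ : G → ℚ, (∀ u v, ψ (u * v) = ψ u + ψ v) ∧ ∀ b ∈ J, ψ b = lam ⁅a, b⁆ := by
        intro a ha
        obtain ⟨ψ, h1, h2⟩ := isVHom_extend J hJf (fun b => lam ⁅a, b⁆) (GT.right hadd hkill ha)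
        refine ⟨ψ, ?_, h2⟩
        apply isVHom_inv _ h1
        intro g h
        obtain ⟨e, he, hpow⟩ := exists_pow_mem_fi J hJf
        have h3 : g⁻¹ * h ^ e * g ∈ J := by
          have := hJn.conj_mem _ (hpow h) g⁻¹
          rwa [inv_inv] at this
        have h4 : ψ ((g⁻¹ * h * g) ^ e) = ψ (h ^ e) := by
          rw [conj_pow', h2 _ h3, h2 _ (hpow h)]
          show lam ⁅a, g⁻¹ * h ^ e * g⁆ = lam ⁅a, h ^ e⁆
          have h5 : ⁅a, g⁻¹ * h ^ e * g⁆ = g⁻¹ * ⁅g * a * g⁻¹, h ^ e⁆ * g⁻¹⁻¹ := by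
            simp only [commutatorElement_def]; group
          have h6 : ⁅g * a * g⁻¹, h ^ e⁆ ∈ S.N (p + 1) :=
            hJ2 (D2.comm_mem_gam (hnk.conj_mem a ha g) (hpow h))
          rw [h5, inv0 g⁻¹ _ h6]
          exact inv1 _ (hpow h) g a ha
        rw [h1.1, h1.1] at h4
        exact mul_left_cancel₀ (Nat.cast_ne_zero.2 he.ne') h4
      -- the lift
      obtain ⟨lam', hl1, hl2, hl3⟩ := (hm₁ p hp).2.2 lam hlam1 hlam2
      have hzero : ∀ α ∈ gam A k, ∀ β ∈ A, ∑ v ∈ lev X 1, lam ⁅S.wsec α v, S.wsec β v⁆ = 0 := by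
        intro α hα β hβ
        have hαL : α ∈ S.LSt 1 := hAL (D2.gam_le A k hα)
        set y := ⁅α, β⁆ with hy
        have hyg : y ∈ gam A (k + 1) := D2.comm_mem_gam hα hβ
        have hyL : y ∈ S.LSt 1 := hAL (D2.gam_le A _ hyg)
        have hys : ∀ v : List X, v.length = 1 → S.wsec y v ∈ S.N (1 + p) := by
          intro v hv
          rw [add_comm]
          exact hJ2 (GT.wsec_gam S hAL hv (hAs v hv) _ y hyg)
        have h1 : ∀ v : List X, v.length = 1 → ∃ k, S.IsAt k v (S.wsec y v) ∧ k ∈ S.N p := by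
          intro v hv
          obtain ⟨h2, h3⟩ := (cf.nadd 1 p _).1 (hys v hv)
          obtain ⟨k, hk⟩ := h2 v hv
          exact ⟨k, hk, h3 v k hv hk⟩
        choose! κ hκ hκN using h1
        obtain ⟨z, hz1, hz2, hz3, -, hz5⟩ := prod_at cf 1 (fun v => S.wsec y v) κ (S.N p) hκ hκN (lev X 1)
          (fun v hv => mem_lev.1 hv)
        have hyz : y = z := by
          have : y * z⁻¹ = 1 := by
            apply cf.faith _ 1 ((S.LSt 1).mul_mem hyL ((S.LSt 1).inv_mem hz2))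
            intro v hv
            rw [S.wsec_mul_of_LSt ((S.LSt 1).inv_mem hz2) hv, S.wsec_inv, (S.LSt 1).inv_mem hz2 v hv,
              hz3 v (mem_lev.2 hv)]
            simp
          exact mul_inv_eq_one.1 this
        have h4 := hz5 lam' (fun a ha b hb hab => hl1.comm ha hb hab)
        have h5 : lam' z = 0 := by
          rw [← hyz]
          exact hl2 y (hJ2 (GT.gam_mono inf_le_left _ hyg))
        rw [h5] at h4
        rw [h4]
        apply Finset.sum_congr rfl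
        intro v hv
        rw [mem_lev] at hv
        obtain ⟨x, rfl⟩ := List.length_eq_one_iff.1 hv
        have h6 := hl3 x (S.wsec y [x]) (κ [x]) (by have := hys [x] rfl; rwa [add_comm] at this) (hκ [x] rfl)
        rw [h6, hy, GT.wsec_comm S hαL (hAL hβ) rfl]
      -- use `tf`
      have hvan : ∀ α ∈ gam A k, ∀ v : List X, v.length = 1 → ∀ b ∈ J, lam ⁅S.wsec α v, b⁆ = 0 := by
        intro α hα
        have hαs : ∀ v : List X, v.length = 1 → S.wsec α v ∈ gam J k := fun v hv =>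
          GT.wsec_gam S hAL hv (hAs v hv) k α hα
        have hex : ∀ v : List X, ∃ ψ : G → ℚ, (∀ a b, ψ (a * b) = ψ a + ψ b) ∧
            (v.length = 1 → ∀ b ∈ J, ψ b = lam ⁅S.wsec α v, b⁆) := by
          intro v
          by_cases hv : v.length = 1
          · obtain ⟨ψ, h1, h2⟩ := hom2 _ (hαs v hv)
            exact ⟨ψ, h1, fun _ => h2⟩
          · exact ⟨fun _ => 0, by simp, fun h => absurd h hv⟩
        choose ζ hζ1 hζ2 using hex
        have hζV : ∀ v : List X, v.length = 1 → IsVHom (ζ v) := by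
          intro v _
          have hadd : ∀ a ∈ (⊤ : Subgroup G), ∀ b ∈ (⊤ : Subgroup G), ζ v (a * b) = ζ v a + ζ v b :=
            fun a _ b _ => hζ1 v a b
          exact ⟨fun g n => (vadd_pow hadd).2.2 g trivial n, ⊤, inferInstance, inferInstance, hadd⟩
        have hrel := rel_of_fi (S := S) hζV A hAf (by
          intro β _ hβ
          rw [← hzero α hα β hβ]
          apply Finset.sum_congr rfl
          intro v hv
          rw [mem_lev] at hv
          exact hζ2 v hv _ (hAs v hv β hβ))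
        intro v hv b hb
        rw [← hζ2 v hv b hb]
        exact hS.tf 1 ζ hζ1 hrel v hv b
      -- conclusion
      have hadd' : AddOn (gam J' (k + 1)) lam := hadd.mono (GT.gam_mono hJ'J _)
      apply GT.zero_of_gen hadd'
      intro a ha b hb
      obtain ⟨α, hα, rfl⟩ := GT.gam_wsec_surj S hAL (v := [x₀]) rfl k a ha
      exact hvan α hα [x₀] rfl b (hJ'J hb)
    -- finish
    have hN : (S.N (p + 1 + 1)).Normal := cf.nn _
    have hJ'fg : J'.FG := (Group.fg_iff_subgroup_fg J').1 (Subgroup.fg_of_index_ne_zero J')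
    have hJ'1 : gam J' (k + 1 + 1) ≤ S.N (p + 1 + 1) := (GT.gam_mono hJ'J _).trans hJ1
    have hfin : (S.N (p + 1 + 1)).relIndex (gam J' (k + 1)) ≠ 0 := by
      apply GT.fin_quot hJ'fg (k + 1) (S.N (p + 1 + 1)) hJ'1
      intro mu hmu1 hmu2 x hx
      obtain ⟨B, -, hB2, hB3, hB4⟩ := hA (p + 1) (by omega)
      obtain ⟨lam, h1, h2, h3⟩ := extV (H := S.N (p + 1)) (N := S.N (p + 1 + 1)) (A := B)
        (M := gam J' (k + 1)) hN hB2 hB3 hB4 ((GT.gam_mono hJ'J _).trans hJ2) mu hmu1 hmu2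
      rw [← h3 x hx]
      exact kill lam h1 (fun h hh => h2 h (cf.nanti _ hh) hh) x hx
    exact GT.cent_fi hJ'fg hJ'f k (S.N (p + 1 + 1)) hJ'1 hfin
  -- bound
  obtain ⟨c, hc⟩ := hPex m₁
  obtain ⟨c', hc'⟩ := hPex (m₁ + 1)
  set C := max c c' with hC
  have hC1 : P C m₁ := hPc _ _ _ (le_max_left _ _) hc
  have hC2 : P (C + 1) (m₁ + 1) := hPc _ _ _ (by have := le_max_right c c'; omega) hc'
  have all : ∀ d, P (C + 1) (m₁ + 1 + d) := by
    intro d
    induction d with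
    | zero => exact hC2
    | succ d ih =>
      by_contra hcon
      have hex := hPex (m₁ + 1 + d + 1)
      have h1 := Nat.find_spec hex
      have h2 : C + 2 ≤ Nat.find hex := by
        by_contra h
        push Not at h
        exact hcon (hPc _ _ _ (by omega) h1)
      obtain ⟨k, hk⟩ := Nat.exists_eq_add_of_le h2
      have hk' : Nat.find hex = (C + k) + 2 := by omega
      rw [hk'] at h1
      have h3 := main (C + k) (m₁ + 1 + d) (by omega) h1 (hPc _ _ _ (by omega) ih) (hPc _ _ _ (by omega) hC1)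
      have h4 := Nat.find_min hex (m := C + k + 1) (by omega)
      exact h4 h3
  refine ⟨C + 1, fun m => ?_⟩
  obtain ⟨J, h1, h2, h3⟩ := all m
  exact ⟨J, h1, h2, h3.trans (cf.nle (by omega))⟩

end PCF
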