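import Pool.Agent.Work.MP_80ff4e_al.Interface4

/-!
# Block SG: the key counting lemma

`stmt_SG (hL : Stmt_L) (hEX : Stmt_EX) : Stmt_SG`.
-/

set_option autoImplicit false
set_option linter.unusedSectionVars false

open Polynomial

namespace PCF
namespace SG

/-! ## Riemann-Hurwitz for polynomials -/

/-- The contribution of the point `Q`. -/
noncomputable def rhd (g : ℂ[X]) (Q : ℂ) : ℕ := g.natDegree - (fibre g Q).card

section RH

variable (hL : Stmt_L)
include hL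

theorem mem_fibre {g : ℂ[X]} (hg : 1 ≤ g.natDegree) {z u : ℂ} :
    u ∈ fibre g z ↔ g.eval u = z := hL.2.2.2.1 g hg z u

theorem sum_ldeg {g : ℂ[X]} (hg : 1 ≤ g.natDegree) (z : ℂ) :
    ∑ u ∈ fibre g z, ldeg g u = g.natDegree := hL.2.2.2.2.1 g hg z

theorem one_le_ldeg {g : ℂ[X]} (hg : 1 ≤ g.natDegree) (u : ℂ) : 1 ≤ ldeg g u :=
  hL.2.2.2.2.2.1 g hg u

theorem card_le {g : ℂ[X]} (hg : 1 ≤ g.natDegree) (Q : ℂ) :
    (fibre g Q).card ≤ g.natDegree := by
  rw [← sum_ldeg hL hg Q, Finset.card_eq_sum_ones]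
  exact Finset.sum_le_sum fun u _ => one_le_ldeg hL hg u

theorem rh_all {g : ℂ[X]} (hg : 1 ≤ g.natDegree) (T : Finset ℂ) :
    ∃ S : Finset ℂ, T ⊆ S ∧ (∑ z ∈ S, rhd g z) + 1 = g.natDegree := by
  classical
  have hne : g.derivative ≠ 0 := by
    intro h0
    have := Polynomial.derivative_eq_zero.1 h0
    omega
  refine ⟨T ∪ (g.derivative.roots.toFinset.image fun u => g.eval u), Finset.subset_union_left,
    ?_⟩
  refine hL.2.2.2.2.2.2.2.2 g hg _ fun u hu => ?_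
  refine Finset.mem_union_right _ (Finset.mem_image_of_mem _ ?_)
  rw [Multiset.mem_toFinset, Polynomial.mem_roots hne]
  exact hu

theorem rh_le {g : ℂ[X]} (hg : 1 ≤ g.natDegree) (T : Finset ℂ) :
    (∑ z ∈ T, rhd g z) + 1 ≤ g.natDegree := by
  obtain ⟨S, hTS, hS⟩ := rh_all hL hg T
  rw [← hS]
  exact Nat.add_le_add_right (Finset.sum_le_sum_of_subset hTS) 1

theorem rh_zero {g : ℂ[X]} (hg : 1 ≤ g.natDegree) (T : Finset ℂ)
    (hT : (∑ z ∈ T, rhd g z) + 1 = g.natDegree) {Q : ℂ} (hQ : Q ∉ T) : rhd g Q = 0 := by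
  classical
  have := rh_le hL hg (insert Q T)
  rw [Finset.sum_insert hQ] at this
  omega

theorem rh_exists {g : ℂ[X]} (hg : 1 ≤ g.natDegree) (T : Finset ℂ)
    (hT : (∑ z ∈ T, rhd g z) + 1 < g.natDegree) : ∃ Q, Q ∉ T ∧ 1 ≤ rhd g Q := by
  classical
  obtain ⟨S, hTS, hS⟩ := rh_all hL hg T
  by_contra hcon
  push Not at hcon
  have : ∑ z ∈ S, rhd g z = ∑ z ∈ T, rhd g z := by
    symm
    refine Finset.sum_subset hTS fun Q _ hQT => ?_
    have := hcon Q hQT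
    omega
  omega

theorem ldeg_of_rhd_zero {g : ℂ[X]} (hg : 1 ≤ g.natDegree) {Q : ℂ} (h0 : rhd g Q = 0) {z : ℂ}
    (hz : g.eval z = Q) : ldeg g z = 1 := by
  have h1 : (fibre g Q).card = g.natDegree := by
    have := card_le hL hg Q
    unfold rhd at h0
    omega
  have h2 : ∑ u ∈ fibre g Q, 1 = ∑ u ∈ fibre g Q, ldeg g u := by
    rw [sum_ldeg hL hg Q, ← h1, Finset.card_eq_sum_ones]
  have h3 := (Finset.sum_eq_sum_iff_of_le (fun u _ => one_le_ldeg hL hg u)).1 h2 z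
    ((mem_fibre hL hg).2 hz)
  exact h3.symm

theorem exists_ldeg_of_rhd {g : ℂ[X]} (hg : 1 ≤ g.natDegree) {Q : ℂ} (h0 : 1 ≤ rhd g Q) :
    ∃ z, g.eval z = Q ∧ 2 ≤ ldeg g z := by
  by_contra hcon
  push Not at hcon
  have h1 : ∑ u ∈ fibre g Q, ldeg g u = ∑ u ∈ fibre g Q, 1 := by
    refine Finset.sum_congr rfl fun u hu => ?_
    have h2 := hcon u ((mem_fibre hL hg).1 hu)
    have h3 := one_le_ldeg hL hg u
    omega
  rw [sum_ldeg hL hg Q, ← Finset.card_eq_sum_ones] at h1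
  unfold rhd at h0
  omega

end RH

/-! ## The square -/

/-- The square `A ∘ B = E ∘ D`. -/
structure Sq (A B E D : ℂ[X]) : Prop where
  sq : A.comp B = E.comp D
  hA : 1 ≤ A.natDegree
  hB : 1 ≤ B.natDegree
  hE : 1 ≤ E.natDegree
  hD : 1 ≤ D.natDegree
  hAD : A.natDegree = D.natDegree
  hBE : B.natDegree = E.natDegree
  fin : (NonInj B D).Finite

section Square

variable (hL : Stmt_L) (hEX : Stmt_EX) {A B E D : ℂ[X]} (h : Sq A B E D)

include h in
theorem sq_eval (z : ℂ) : A.eval (B.eval z) = E.eval (D.eval z) := by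
  have := congrArg (fun q : ℂ[X] => q.eval z) h.sq
  simpa only [Polynomial.eval_comp] using this

include hL hEX h

theorem mul_ldeg (z : ℂ) :
    Nat.gcd (ldeg A (B.eval z)) (ldeg E (D.eval z)) * ldeg B z = ldeg E (D.eval z) ∧
    Nat.gcd (ldeg A (B.eval z)) (ldeg E (D.eval z)) * ldeg D z = ldeg A (B.eval z) := by
  have hx := (hEX A B E D h.sq h.hA h.hB h.hAD h.hBE h.fin).1 z
  have h1 := hL.2.2.2.2.2.2.2.1 A B h.hA h.hB z
  have h2 := hL.2.2.2.2.2.2.2.1 E D h.hE h.hD z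
  rw [h.sq, h2] at h1
  rw [h.sq, h2] at hx
  have he := one_le_ldeg hL h.hA (B.eval z)
  have hf := one_le_ldeg hL h.hE (D.eval z)
  set e := ldeg A (B.eval z) with hedef
  set f := ldeg E (D.eval z) with hfdef
  have hgl := Nat.gcd_mul_lcm e f
  constructor
  · have : e * (Nat.gcd e f * ldeg B z) = e * f := by
      calc e * (Nat.gcd e f * ldeg B z) = Nat.gcd e f * (e * ldeg B z) := by ring
        _ = Nat.gcd e f * Nat.lcm e f := by rw [← h1, hx]
        _ = e * f := hgl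
    exact Nat.eq_of_mul_eq_mul_left he this
  · have : f * (Nat.gcd e f * ldeg D z) = f * e := by
      calc f * (Nat.gcd e f * ldeg D z) = Nat.gcd e f * (f * ldeg D z) := by ring
        _ = Nat.gcd e f * Nat.lcm e f := by rw [hx]
        _ = f * e := by rw [hgl, mul_comm]
    exact Nat.eq_of_mul_eq_mul_left hf this

open Classical in
theorem card_pt {P Q : ℂ} (hPQ : A.eval P = E.eval Q) :
    ((fibre B P).filter (fun z => D.eval z = Q)).card = Nat.gcd (ldeg A P) (ldeg E Q) := by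
  have hx := (hEX A B E D h.sq h.hA h.hB h.hAD h.hBE h.fin).2 P Q hPQ
  have hf := one_le_ldeg hL h.hE Q
  have h1 : ∑ z ∈ (fibre B P).filter (fun z => D.eval z = Q),
      Nat.gcd (ldeg A P) (ldeg E Q) * ldeg B z
      = ∑ z ∈ (fibre B P).filter (fun z => D.eval z = Q), ldeg E Q := by
    refine Finset.sum_congr rfl fun z hz => ?_
    rw [Finset.mem_filter, mem_fibre hL h.hB] at hz
    have := (mul_ldeg hL hEX h z).1
    rwa [hz.1, hz.2] at this
  rw [← Finset.mul_sum, hx, Finset.sum_const, smul_eq_mul] at h1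
  exact (Nat.eq_of_mul_eq_mul_right hf h1).symm

theorem exists_pt {P Q : ℂ} (hPQ : A.eval P = E.eval Q) : ∃ z, B.eval z = P ∧ D.eval z = Q := by
  classical
  have h1 := card_pt hL hEX h hPQ
  have h2 : 0 < Nat.gcd (ldeg A P) (ldeg E Q) :=
    Nat.gcd_pos_of_pos_left _ (one_le_ldeg hL h.hA P)
  rw [← h1, Finset.card_pos] at h2
  obtain ⟨z, hz⟩ := h2
  rw [Finset.mem_filter, mem_fibre hL h.hB] at hz
  exact ⟨z, hz⟩

/-- Uniqueness of the point when the two local degrees are coprime. -/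
theorem pt_unique {P Q : ℂ} (hPQ : A.eval P = E.eval Q)
    (hg : Nat.gcd (ldeg A P) (ldeg E Q) = 1) {z w : ℂ} (hz : B.eval z = P) (hz' : D.eval z = Q)
    (hw : B.eval w = P) (hw' : D.eval w = Q) : z = w := by
  classical
  have h1 := card_pt hL hEX h hPQ
  rw [hg, Finset.card_eq_one] at h1
  obtain ⟨v, hv⟩ := h1
  have hz1 : z ∈ (fibre B P).filter (fun z => D.eval z = Q) := by
    rw [Finset.mem_filter, mem_fibre hL h.hB]; exact ⟨hz, hz'⟩
  have hw1 : w ∈ (fibre B P).filter (fun z => D.eval z = Q) := by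
    rw [Finset.mem_filter, mem_fibre hL h.hB]; exact ⟨hw, hw'⟩
  rw [hv, Finset.mem_singleton] at hz1 hw1
  rw [hz1, hw1]

theorem card_fibre_D {Q b : ℂ} (hb : E.eval Q = b) :
    (fibre D Q).card = ∑ P ∈ fibre A b, Nat.gcd (ldeg A P) (ldeg E Q) := by
  classical
  have hmap : ∀ z ∈ fibre D Q, B.eval z ∈ fibre A b := by
    intro z hz
    rw [mem_fibre hL h.hD] at hz
    rw [mem_fibre hL h.hA, sq_eval h, hz, hb]
  rw [Finset.card_eq_sum_card_fiberwise hmap]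
  refine Finset.sum_congr rfl fun P hP => ?_
  rw [mem_fibre hL h.hA] at hP
  rw [← card_pt hL hEX h (hP.trans hb.symm)]
  congr 1
  ext z
  rw [Finset.mem_filter, Finset.mem_filter, mem_fibre hL h.hD, mem_fibre hL h.hB]
  exact and_comm

end Square

/-! ## The data of the lemma -/

/-- The hypotheses of the lemma. -/
structure Dat (p : ℕ) (A B E D : ℂ[X]) : Prop extends Sq A B E D where
  hp : p.Prime
  hcop : Nat.Coprime D.natDegree B.natDegree
  hpn : p ∣ B.natDegree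
  hs : ¬ p ∣ ldeg D 0
  hz : ∀ z, z ≠ 0 → D.eval z = D.eval 0 → p ∣ ldeg D z
  hex : ∃ z, z ≠ 0 ∧ D.eval z = D.eval 0

section Main

variable (hL : Stmt_L) (hEX : Stmt_EX) {p : ℕ} {A B E D : ℂ[X]} (d : Dat p A B E D)
include hL hEX d

theorem pt_zero {z : ℂ} (h1 : B.eval z = B.eval 0) (h2 : D.eval z = D.eval 0) : z = 0 := by
  by_contra hz0
  have h3 := (mul_ldeg hL hEX d.toSq z).2
  have h4 := (mul_ldeg hL hEX d.toSq 0).2
  rw [h1, h2] at h3
  have hg : 0 < Nat.gcd (ldeg A (B.eval 0)) (ldeg E (D.eval 0)) :=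
    Nat.gcd_pos_of_pos_left _ (one_le_ldeg hL d.hA _)
  have h5 : ldeg D z = ldeg D 0 := Nat.eq_of_mul_eq_mul_left hg (h3.trans h4.symm)
  exact d.hs (h5 ▸ d.hz z hz0 h2)

theorem gcd_zero : Nat.gcd (ldeg A (B.eval 0)) (ldeg E (D.eval 0)) = 1 := by
  classical
  have h1 := card_pt hL hEX d.toSq (sq_eval d.toSq 0)
  have hg : 0 < Nat.gcd (ldeg A (B.eval 0)) (ldeg E (D.eval 0)) :=
    Nat.gcd_pos_of_pos_left _ (one_le_ldeg hL d.hA _)
  have h2 : (fibre B (B.eval 0)).filter (fun z => D.eval z = D.eval 0) ⊆ {0} := by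
    intro z hz
    rw [Finset.mem_filter, mem_fibre hL d.hB] at hz
    rw [Finset.mem_singleton]
    exact pt_zero hL hEX d hz.1 hz.2
  have h3 := Finset.card_le_card h2
  rw [h1, Finset.card_singleton] at h3
  omega

theorem e_zero : ldeg A (B.eval 0) = ldeg D 0 := by
  have h := (mul_ldeg hL hEX d.toSq 0).2
  rw [gcd_zero hL hEX d, one_mul] at h
  exact h.symm

theorem not_dvd_e_zero : ¬ p ∣ ldeg A (B.eval 0) := by
  rw [e_zero hL hEX d]; exact d.hs

/-- The points over `b` different from `P₀`. -/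
theorem dvd_K {P : ℂ} (hP : A.eval P = E.eval (D.eval 0)) (hne : P ≠ B.eval 0) :
    p * Nat.gcd (ldeg A P) (ldeg E (D.eval 0)) ∣ ldeg A P := by
  obtain ⟨z, hz1, hz2⟩ := exists_pt hL hEX d.toSq hP
  have hz0 : z ≠ 0 := by
    rintro rfl
    exact hne hz1.symm
  have h1 := d.hz z hz0 hz2
  have h2 := (mul_ldeg hL hEX d.toSq z).2
  rw [hz1, hz2] at h2
  obtain ⟨k, hk⟩ := h1
  refine ⟨k, ?_⟩
  calc ldeg A P = Nat.gcd (ldeg A P) (ldeg E (D.eval 0)) * ldeg D z := h2.symm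
    _ = p * Nat.gcd (ldeg A P) (ldeg E (D.eval 0)) * k := by rw [hk]; ring

theorem dvd_K' {P Q : ℂ} (hP : A.eval P = E.eval (D.eval 0)) (hne : P ≠ B.eval 0)
    (hQ : ¬ p ∣ ldeg E Q) :
    p * Nat.gcd (ldeg A P) (ldeg E Q) ∣ ldeg A P := by
  have h1 : p ∣ ldeg A P := (Dvd.intro _ rfl).trans (dvd_K hL hEX d hP hne)
  have h2 : Nat.gcd (ldeg A P) (ldeg E Q) ∣ ldeg A P := Nat.gcd_dvd_left _ _
  refine Nat.Coprime.mul_dvd_of_dvd_of_dvd ?_ h1 h2
  rw [Nat.Prime.coprime_iff_not_dvd d.hp]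
  intro h3
  exact hQ (h3.trans (Nat.gcd_dvd_right _ _))

/-- The points of `A` over `b` different from `P₀`. -/
noncomputable def K (A B E D : ℂ[X]) : Finset ℂ :=
  (fibre A (E.eval (D.eval 0))).erase (B.eval 0)

theorem mem_K {P : ℂ} : P ∈ K A B E D ↔ A.eval P = E.eval (D.eval 0) ∧ P ≠ B.eval 0 := by
  unfold K
  rw [Finset.mem_erase, mem_fibre hL d.hA]
  exact and_comm

theorem zero_mem : B.eval 0 ∈ fibre A (E.eval (D.eval 0)) :=
  (mem_fibre hL d.hA).2 (sq_eval d.toSq 0)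

theorem sum_K : ldeg D 0 + ∑ P ∈ K A B E D, ldeg A P = D.natDegree := by
  rw [← d.hAD, ← sum_ldeg hL d.hA (E.eval (D.eval 0)), ← e_zero hL hEX d]
  exact Finset.add_sum_erase _ _ (zero_mem hL hEX d)

theorem K_nonempty : (K A B E D).Nonempty := by
  obtain ⟨z, hz0, hz⟩ := d.hex
  refine ⟨B.eval z, (mem_K hL hEX d).2 ⟨?_, ?_⟩⟩
  · rw [sq_eval d.toSq, hz]
  · intro h
    exact hz0 (pt_zero hL hEX d h hz)

theorem y_pos : 0 < ∑ P ∈ K A B E D, ldeg A P := by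
  obtain ⟨P, hP⟩ := K_nonempty hL hEX d
  exact Finset.sum_pos' (fun _ _ => Nat.zero_le _) ⟨P, hP, one_le_ldeg hL d.hA P⟩

theorem N_eq {Q : ℂ} (hQ : E.eval Q = E.eval (D.eval 0)) :
    (fibre D Q).card = Nat.gcd (ldeg D 0) (ldeg E Q) +
      ∑ P ∈ K A B E D, Nat.gcd (ldeg A P) (ldeg E Q) := by
  rw [card_fibre_D hL hEX d.toSq hQ, ← e_zero hL hEX d]
  exact (Finset.add_sum_erase _ _ (zero_mem hL hEX d)).symm

theorem term0 {P : ℂ} (hP : P ∈ K A B E D) :
    p * Nat.gcd (ldeg A P) (ldeg E (D.eval 0)) ≤ ldeg A P := by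
  rw [mem_K hL hEX d] at hP
  exact Nat.le_of_dvd (one_le_ldeg hL d.hA P) (dvd_K hL hEX d hP.1 hP.2)

theorem term1 {P Q : ℂ} (hP : P ∈ K A B E D) (hQ : ¬ p ∣ ldeg E Q) :
    p * Nat.gcd (ldeg A P) (ldeg E Q) ≤ ldeg A P := by
  rw [mem_K hL hEX d] at hP
  exact Nat.le_of_dvd (one_le_ldeg hL d.hA P) (dvd_K' hL hEX d hP.1 hP.2 hQ)

theorem N0 : p * (fibre D (D.eval 0)).card ≤ p + ∑ P ∈ K A B E D, ldeg A P := by
  have h1 : Nat.gcd (ldeg D 0) (ldeg E (D.eval 0)) = 1 := by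
    rw [← e_zero hL hEX d]; exact gcd_zero hL hEX d
  rw [N_eq hL hEX d rfl, h1, mul_add, mul_one, Finset.mul_sum]
  exact Nat.add_le_add_left (Finset.sum_le_sum fun P hP => term0 hL hEX d hP) p

theorem N1 {Q : ℂ} (hQ : E.eval Q = E.eval (D.eval 0)) (hpQ : ¬ p ∣ ldeg E Q) :
    p * (fibre D Q).card ≤ p * ldeg D 0 + ∑ P ∈ K A B E D, ldeg A P := by
  have h1 : Nat.gcd (ldeg D 0) (ldeg E Q) ≤ ldeg D 0 :=
    Nat.gcd_le_left _ (one_le_ldeg hL d.hD 0)
  rw [N_eq hL hEX d hQ, mul_add, Finset.mul_sum]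
  exact Nat.add_le_add (Nat.mul_le_mul_left p h1)
    (Finset.sum_le_sum fun P hP => term1 hL hEX d hP hpQ)

theorem sum_fE : ∑ Q ∈ fibre E (E.eval (D.eval 0)), ldeg E Q = B.natDegree := by
  rw [sum_ldeg hL d.hE, d.hBE]

theorem exists_other {Q : ℂ} (hQ : E.eval Q = E.eval (D.eval 0)) (hpQ : ¬ p ∣ ldeg E Q) :
    ∃ Q', Q' ≠ Q ∧ E.eval Q' = E.eval (D.eval 0) ∧ ¬ p ∣ ldeg E Q' := by
  by_contra hcon
  push Not at hcon
  have h1 := Finset.add_sum_erase _ (ldeg E) ((mem_fibre hL d.hE).2 hQ)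
  rw [sum_fE hL hEX d] at h1
  have h2 : p ∣ ∑ Q' ∈ (fibre E (E.eval (D.eval 0))).erase Q, ldeg E Q' := by
    refine Finset.dvd_sum fun Q' hQ' => ?_
    rw [Finset.mem_erase, mem_fibre hL d.hE] at hQ'
    exact hcon Q' hQ'.1 hQ'.2
  have h3 : p ∣ ldeg E Q := by
    rw [← Nat.dvd_add_left h2, h1]
    exact d.hpn
  exact hpQ h3

theorem caseA (hf : p ∣ ldeg E (D.eval 0)) {Q : ℂ} (hQ : E.eval Q = E.eval (D.eval 0)) :
    p ∣ ldeg E Q := by
  classical
  by_contra hpQ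
  obtain ⟨Q', hne, hQ', hpQ'⟩ := exists_other hL hEX d hQ hpQ
  have hQ0 : Q ≠ D.eval 0 := by
    rintro rfl
    exact hpQ hf
  have hQ0' : Q' ≠ D.eval 0 := by
    rintro rfl
    exact hpQ' hf
  have h0 := N0 hL hEX d
  have h1 := N1 hL hEX d hQ hpQ
  have h2 := N1 hL hEX d hQ' hpQ'
  have hx := sum_K hL hEX d
  have hy := y_pos hL hEX d
  have hr := rh_le hL d.hD {D.eval 0, Q, Q'}
  rw [Finset.sum_insert, Finset.sum_insert, Finset.sum_singleton] at hr
  rotate_left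
  · rw [Finset.mem_singleton]; exact hne.symm
  · rw [Finset.mem_insert, Finset.mem_singleton, not_or]; exact ⟨hQ0.symm, hQ0'.symm⟩
  have c0 := card_le hL d.hD (D.eval 0)
  have c1 := card_le hL d.hD Q
  have c2 := card_le hL d.hD Q'
  unfold rhd at hr
  set y := ∑ P ∈ K A B E D, ldeg A P with hydef
  set s := ldeg D 0 with hsdef
  set x := D.natDegree with hxdef
  set n0 := (fibre D (D.eval 0)).card
  set n1 := (fibre D Q).card
  set n2 := (fibre D Q').card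
  have h3 : 2 * x + 1 ≤ n0 + n1 + n2 := by omega
  have h4 : p * (2 * x + 1) ≤ p * (n0 + n1 + n2) := Nat.mul_le_mul_left p h3
  have hp2 := d.hp.two_le
  have h5 : p * (2 * x + 1) = 2 * (p * s) + 2 * (p * y) + p := by rw [← hx]; ring
  have h6 : p * (n0 + n1 + n2) = p * n0 + p * n1 + p * n2 := by ring
  have h7 : 2 * (p * y) ≤ 3 * y := by omega
  have h8 : 2 * y ≤ p * y := Nat.mul_le_mul_right y hp2
  omega

/-- First alternative. -/
theorem first (hf : p ∣ ldeg E (D.eval 0)) (z : ℂ) (hz : B.eval z = B.eval 0) :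
    p ∣ ldeg B z := by
  have h1 := (mul_ldeg hL hEX d.toSq z).1
  have hQ : E.eval (D.eval z) = E.eval (D.eval 0) := by
    rw [← sq_eval d.toSq, ← sq_eval d.toSq, hz]
  have h2 := caseA hL hEX d hf hQ
  rw [← h1] at h2
  rcases (Nat.Prime.dvd_mul d.hp).1 h2 with h3 | h3
  · exfalso
    have h4 := h3.trans (Nat.gcd_dvd_left _ _)
    rw [hz] at h4
    exact not_dvd_e_zero hL hEX d h4
  · exact h3

/-- Outside the two branch points of `D` the local degrees divide. -/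
theorem dvd_other {Q1 : ℂ}
    (h0 : ∀ Q, Q ≠ D.eval 0 → Q ≠ Q1 → rhd D Q = 0) {P Q : ℂ} (hPQ : A.eval P = E.eval Q)
    (hQ0 : Q ≠ D.eval 0) (hQ1 : Q ≠ Q1) : ldeg A P ∣ ldeg E Q := by
  obtain ⟨z, hz1, hz2⟩ := exists_pt hL hEX d.toSq hPQ
  have h1 := (mul_ldeg hL hEX d.toSq z).2
  rw [ldeg_of_rhd_zero hL d.hD (h0 Q hQ0 hQ1) hz2, hz1, hz2, mul_one] at h1
  exact Nat.gcd_eq_left_iff_dvd.1 h1

/-- The first half of the second case. -/
theorem caseB1 (hf : ¬ p ∣ ldeg E (D.eval 0)) :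
    p = 2 ∧ ∃ Q1, Q1 ≠ D.eval 0 ∧ E.eval Q1 = E.eval (D.eval 0) ∧
      (∀ P ∈ K A B E D, 2 * Nat.gcd (ldeg A P) (ldeg E (D.eval 0)) = ldeg A P) ∧
      Nat.gcd (ldeg D 0) (ldeg E Q1) = ldeg D 0 ∧
      (∀ Q, Q ≠ D.eval 0 → Q ≠ Q1 → rhd D Q = 0) := by
  classical
  obtain ⟨Q1, hQ10, hQ1, hpQ1⟩ := exists_other hL hEX d rfl hf
  have h0 := N0 hL hEX d
  have h1 := N1 hL hEX d hQ1 hpQ1
  have hx := sum_K hL hEX d
  have hy := y_pos hL hEX d
  have hr := rh_le hL d.hD {D.eval 0, Q1}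
  have hnot : D.eval 0 ∉ ({Q1} : Finset ℂ) := by
    rw [Finset.mem_singleton]; exact hQ10.symm
  rw [Finset.sum_insert hnot, Finset.sum_singleton] at hr
  have c0 := card_le hL d.hD (D.eval 0)
  have c1 := card_le hL d.hD Q1
  have hp2 := d.hp.two_le
  have key : p = 2 ∧ 2 * (fibre D (D.eval 0)).card = 2 + ∑ P ∈ K A B E D, ldeg A P ∧
      2 * (fibre D Q1).card = 2 * ldeg D 0 + ∑ P ∈ K A B E D, ldeg A P ∧
      rhd D (D.eval 0) + rhd D Q1 + 1 = D.natDegree := by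
    unfold rhd at hr ⊢
    set y := ∑ P ∈ K A B E D, ldeg A P with hydef
    set s := ldeg D 0 with hsdef
    set x := D.natDegree with hxdef
    set n0 := (fibre D (D.eval 0)).card
    set n1 := (fibre D Q1).card
    have h3 : x + 1 ≤ n0 + n1 := by omega
    have h4 : p * (x + 1) ≤ p * (n0 + n1) := Nat.mul_le_mul_left p h3
    have h5 : p * (x + 1) = p * s + p * y + p := by rw [← hx]; ring
    have h6 : p * (n0 + n1) = p * n0 + p * n1 := by ring
    have h7 : p * y ≤ 2 * y := by omega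
    have h8 : p ≤ 2 := Nat.le_of_mul_le_mul_right h7 hy
    have h9 : p = 2 := le_antisymm h8 hp2
    rw [h9] at h0 h1
    refine ⟨h9, ?_, ?_, ?_⟩ <;> omega
  obtain ⟨h2, k0, k1, k2⟩ := key
  refine ⟨h2, Q1, hQ10, hQ1, ?_, ?_, ?_⟩
  · have h3 : Nat.gcd (ldeg D 0) (ldeg E (D.eval 0)) = 1 := by
      rw [← e_zero hL hEX d]; exact gcd_zero hL hEX d
    rw [N_eq hL hEX d rfl, h3] at k0
    have h4 : ∑ P ∈ K A B E D, 2 * Nat.gcd (ldeg A P) (ldeg E (D.eval 0))
        = ∑ P ∈ K A B E D, ldeg A P := by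
      rw [← Finset.mul_sum]
      omega
    refine (Finset.sum_eq_sum_iff_of_le fun P hP => ?_).1 h4
    have := term0 hL hEX d hP
    rwa [h2] at this
  · have h3 : Nat.gcd (ldeg D 0) (ldeg E Q1) ≤ ldeg D 0 :=
      Nat.gcd_le_left _ (one_le_ldeg hL d.hD 0)
    have h4 : ∑ P ∈ K A B E D, 2 * Nat.gcd (ldeg A P) (ldeg E Q1)
        ≤ ∑ P ∈ K A B E D, ldeg A P := by
      refine Finset.sum_le_sum fun P hP => ?_
      have := term1 hL hEX d hP hpQ1
      rwa [h2] at this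
    rw [← Finset.mul_sum] at h4
    rw [N_eq hL hEX d hQ1] at k1
    omega
  · intro Q hQ0 hQ1'
    refine rh_zero hL d.hD {D.eval 0, Q1} ?_ ?_
    · rw [Finset.sum_insert hnot, Finset.sum_singleton]
      exact k2
    · rw [Finset.mem_insert, Finset.mem_singleton, not_or]
      exact ⟨hQ0, hQ1'⟩

/-- The second case. -/
theorem caseB (hf : ¬ p ∣ ldeg E (D.eval 0)) : p = 2 ∧ ∃ θ, Portrait B D θ := by
  classical
  obtain ⟨hp2, Q1, hQ10, hQ1, hg0, hs1, hoth⟩ := caseB1 hL hEX d hf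
  refine ⟨hp2, ?_⟩
  have hn2 : 2 ∣ B.natDegree := hp2 ▸ d.hpn
  -- Riemann-Hurwitz for A
  have hKcard : (K A B E D).card + 1 = (fibre A (E.eval (D.eval 0))).card :=
    Finset.card_erase_add_one (zero_mem hL hEX d)
  have hKpos : 0 < (K A B E D).card := Finset.card_pos.2 (K_nonempty hL hEX d)
  obtain ⟨b', hb', hrb'⟩ := rh_exists hL d.hA {E.eval (D.eval 0)} (by
    rw [Finset.sum_singleton]
    have := card_le hL d.hA (E.eval (D.eval 0))
    unfold rhd
    omega)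
  rw [Finset.mem_singleton] at hb'
  obtain ⟨P', hP', heP'⟩ := exists_ldeg_of_rhd hL d.hA hrb'
  have hfb' : ∀ Q' ∈ fibre E b', 2 ≤ ldeg E Q' := by
    intro Q' hQ'
    rw [mem_fibre hL d.hE] at hQ'
    have h1 : Q' ≠ D.eval 0 := by
      rintro rfl
      exact hb' hQ'.symm
    have h2 : Q' ≠ Q1 := by
      rintro rfl
      exact hb' (hQ'.symm.trans hQ1)
    have h3 := dvd_other hL hEX d hoth (hP'.trans hQ'.symm) h1 h2
    exact heP'.trans (Nat.le_of_dvd (one_le_ldeg hL d.hE Q') h3)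
  have hcb' : 2 * (fibre E b').card ≤ B.natDegree := by
    rw [d.hBE, ← sum_ldeg hL d.hE b', mul_comm, ← smul_eq_mul, ← Finset.sum_const]
    exact Finset.sum_le_sum hfb'
  -- the fibre of E over b
  set O := ((fibre E (E.eval (D.eval 0))).erase (D.eval 0)).erase Q1 with hO
  have hQ0mem : D.eval 0 ∈ fibre E (E.eval (D.eval 0)) := (mem_fibre hL d.hE).2 rfl
  have hQ1mem : Q1 ∈ (fibre E (E.eval (D.eval 0))).erase (D.eval 0) :=
    Finset.mem_erase.2 ⟨hQ10, (mem_fibre hL d.hE).2 hQ1⟩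
  have hOcard : O.card + 2 = (fibre E (E.eval (D.eval 0))).card := by
    have h1 := Finset.card_erase_add_one hQ0mem
    have h2 := Finset.card_erase_add_one hQ1mem
    rw [← hO] at h2
    omega
  have hOsum : ldeg E (D.eval 0) + (ldeg E Q1 + ∑ Q ∈ O, ldeg E Q) = B.natDegree := by
    rw [← sum_fE hL hEX d, hO, Finset.add_sum_erase _ _ hQ1mem, Finset.add_sum_erase _ _ hQ0mem]
  have hOge : ∀ Q ∈ O, 2 ≤ ldeg E Q := by
    intro Q hQ
    rw [hO, Finset.mem_erase, Finset.mem_erase, mem_fibre hL d.hE] at hQ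
    obtain ⟨P, hP⟩ := K_nonempty hL hEX d
    have h1 := hg0 P hP
    have h2 : 0 < Nat.gcd (ldeg A P) (ldeg E (D.eval 0)) :=
      Nat.gcd_pos_of_pos_left _ (one_le_ldeg hL d.hA P)
    have h3 := dvd_other hL hEX d hoth (((mem_K hL hEX d).1 hP).1.trans hQ.2.2.symm) hQ.2.1 hQ.1
    have h4 := Nat.le_of_dvd (one_le_ldeg hL d.hE Q) h3
    omega
  have hOle : 2 * O.card ≤ ∑ Q ∈ O, ldeg E Q := by
    rw [mul_comm, ← smul_eq_mul, ← Finset.sum_const]
    exact Finset.sum_le_sum hOge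
  have hrE := rh_le hL d.hE {E.eval (D.eval 0), b'}
  have hnb : E.eval (D.eval 0) ∉ ({b'} : Finset ℂ) := by
    rw [Finset.mem_singleton]; exact fun h => hb' h.symm
  rw [Finset.sum_insert hnb, Finset.sum_singleton] at hrE
  have ce := card_le hL d.hE (E.eval (D.eval 0))
  have ce' := card_le hL d.hE b'
  have hf0 := one_le_ldeg hL d.hE (D.eval 0)
  have hf1 := one_le_ldeg hL d.hE Q1
  have hBE := d.hBE
  unfold rhd at hrE
  have hf0' : ldeg E (D.eval 0) = 1 := by omega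
  have hf1' : ldeg E Q1 = 1 := by omega
  have hOeq : 2 * O.card = ∑ Q ∈ O, ldeg E Q := by omega
  have hb'eq : 2 * (fibre E b').card = B.natDegree := by omega
  have hO2 : ∀ Q ∈ O, 2 = ldeg E Q := by
    rw [mul_comm, ← smul_eq_mul, ← Finset.sum_const] at hOeq
    exact (Finset.sum_eq_sum_iff_of_le hOge).1 hOeq
  have hb2 : ∀ Q ∈ fibre E b', 2 = ldeg E Q := by
    rw [d.hBE, ← sum_ldeg hL d.hE b', mul_comm, ← smul_eq_mul, ← Finset.sum_const] at hb'eq
    exact (Finset.sum_eq_sum_iff_of_le hfb').1 hb'eq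
  have heK : ∀ P ∈ K A B E D, ldeg A P = 2 := by
    intro P hP
    have := hg0 P hP
    rw [hf0', Nat.gcd_one_right] at this
    omega
  have hs : ldeg D 0 = 1 := by
    rw [hf1', Nat.gcd_one_right] at hs1
    exact hs1.symm
  have he0 : ldeg A (B.eval 0) = 1 := (e_zero hL hEX d).trans hs
  have hPQ1 : A.eval (B.eval 0) = E.eval Q1 := (sq_eval d.toSq 0).trans hQ1.symm
  obtain ⟨θ, hθB, hθD⟩ := exists_pt hL hEX d.toSq hPQ1
  have hθuniq : ∀ z, B.eval z = B.eval 0 → D.eval z = Q1 → z = θ := by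
    intro z hz1 hz2
    refine pt_unique hL hEX d.toSq hPQ1 ?_ hz1 hz2 hθB hθD
    rw [he0, Nat.gcd_one_left]
  have hoddP : ∃ P'', A.eval P'' = b' ∧ ¬ 2 ∣ ldeg A P'' := by
    by_contra hcon
    push Not at hcon
    have h1 : 2 ∣ A.natDegree := by
      rw [← sum_ldeg hL d.hA b']
      exact Finset.dvd_sum fun P hP => hcon P ((mem_fibre hL d.hA).1 hP)
    rw [d.hAD] at h1
    have h2 := Nat.dvd_gcd h1 hn2
    rw [Nat.coprime_iff_gcd_eq_one.1 d.hcop] at h2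
    omega
  refine ⟨θ, ?_, hθB, ?_, ?_, ?_, ?_, ?_, hs, ?_, ?_⟩
  · rintro rfl
    exact hQ10 hθD.symm
  · have h1 := (mul_ldeg hL hEX d.toSq 0).1
    rw [gcd_zero hL hEX d, one_mul, hf0'] at h1
    exact h1
  · have h1 := (mul_ldeg hL hEX d.toSq θ).1
    rw [hθB, hθD, he0, hf1', Nat.gcd_one_left, one_mul] at h1
    exact h1
  · intro z hz hz0 hzθ
    have hQ : E.eval (D.eval z) = E.eval (D.eval 0) := by
      rw [← sq_eval d.toSq, ← sq_eval d.toSq, hz]
    have hmem : D.eval z ∈ O := by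
      rw [hO, Finset.mem_erase, Finset.mem_erase, mem_fibre hL d.hE]
      refine ⟨fun h => hzθ (hθuniq z hz h), fun h => hz0 (pt_zero hL hEX d hz h), hQ⟩
    have h1 := (mul_ldeg hL hEX d.toSq z).1
    rw [← hO2 _ hmem, hz, he0, Nat.gcd_one_left, one_mul] at h1
    exact h1
  · obtain ⟨P'', hP'', hodd⟩ := hoddP
    refine ⟨P'', ?_, ?_⟩
    · rintro rfl
      exact hb' (hP''.symm.trans (sq_eval d.toSq 0))
    · intro z hz
      have hQ : D.eval z ∈ fibre E b' := by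
        rw [mem_fibre hL d.hE, ← sq_eval d.toSq, hz, hP'']
      have h1 := (mul_ldeg hL hEX d.toSq z).1
      have h2 : Nat.gcd (ldeg A P'') 2 = 1 := by
        rw [Nat.gcd_comm]
        exact (Nat.Prime.coprime_iff_not_dvd Nat.prime_two).2 hodd
      rw [← hb2 _ hQ, hz, h2, one_mul] at h1
      exact h1
  · rw [hθD]; exact hQ10
  · have h1 := (mul_ldeg hL hEX d.toSq θ).2
    rw [hθB, hθD, he0, hf1', Nat.gcd_one_left, one_mul] at h1
    exact h1
  · intro z hz hz0 hzθ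
    have hQ : E.eval (D.eval z) = E.eval (D.eval 0) := by
      rcases hz with h | h
      · rw [h]
      · rw [h, hθD, hQ1]
    have hfz : ldeg E (D.eval z) = 1 := by
      rcases hz with h | h
      · rw [h, hf0']
      · rw [h, hθD, hf1']
    have hmem : B.eval z ∈ K A B E D := by
      rw [mem_K hL hEX d]
      refine ⟨(sq_eval d.toSq z).trans hQ, fun h => ?_⟩
      rcases hz with h' | h'
      · exact hz0 (pt_zero hL hEX d h h')
      · exact hzθ (hθuniq z h (h'.trans hθD))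
    have h1 := (mul_ldeg hL hEX d.toSq z).2
    rw [heK _ hmem, hfz, Nat.gcd_one_right, one_mul] at h1
    exact h1

end Main

end SG

/-- Block SG. -/
theorem stmt_SG (hL : Stmt_L) (hEX : Stmt_EX) : Stmt_SG := by
  intro p A B E D hp hsq hA hB hAD hBE hfin hcop hpn hs hz hex
  have d : SG.Dat p A B E D :=
    { sq := hsq, hA := hA, hB := hB, hE := hBE ▸ hB, hD := hAD ▸ hA, hAD := hAD, hBE := hBE,
      fin := hfin, hp := hp, hcop := hcop, hpn := hpn, hs := hs, hz := hz, hex := hex }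
  by_cases hf : p ∣ ldeg E (D.eval 0)
  · exact Or.inl fun z hz => SG.first hL hEX d hf z hz
  · exact Or.inr (SG.caseB hL hEX d hf)

end PCF

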