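import Pool.Agent.Work.MP_80ff4e_al.Interface2
import Pool.Agent.Work.MP_80ff4e_al_helper39.V

/-!
Tools on virtual homomorphisms and the averaging lemma for families.
-/

set_option autoImplicit false

namespace PCF

open scoped commutatorElement

variable {G : Type} [Group G]

lemma isVHom_zero : IsVHom (fun _ : G => (0 : ℚ)) :=
  ⟨fun _ _ => by simp, ⊤, inferInstance, inferInstance, fun _ _ _ _ => by simp⟩

lemma isVHom_sum {ι : Type} (s : Finset ι) (φ : ι → G → ℚ) (h : ∀ i ∈ s, IsVHom (φ i)) :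
    IsVHom (fun g => ∑ i ∈ s, φ i g) := by
  classical
  induction s using Finset.induction_on with
  | empty => simpa using isVHom_zero (G := G)
  | insert a s ha ih =>
    have h1 := isVHom_add _ _ (h a (Finset.mem_insert_self _ _))
      (ih fun i hi => h i (Finset.mem_insert_of_mem hi))
    have e : (fun g => ∑ i ∈ insert a s, φ i g) = fun g => φ a g + ∑ i ∈ s, φ i g := by
      funext g
      rw [Finset.sum_insert ha]
    rw [e]
    exact h1

/-- additivity on pairs commuting modulo a normal subgroup killed by `φ` -/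
lemma isVHom_comm_mod (φ : G → ℚ) (h : IsVHom φ) (N : Subgroup G) (hN : N.Normal)
    (h0 : ∀ n ∈ N, φ n = 0) (a b : G) (hab : ⁅a, b⁆ ∈ N) : φ (a * b) = φ a + φ b := by
  have hh := h
  obtain ⟨h1, J, hJ, hJ', h2⟩ := h
  obtain ⟨k, hk, hkJ⟩ := exists_pow_mem_fi J hJ'
  have hc : Commute (a : G ⧸ N) (b : G ⧸ N) := by
    rw [← commutatorElement_eq_one_iff_commute]
    have : ((⁅a, b⁆ : G) : G ⧸ N) = 1 := (QuotientGroup.eq_one_iff _).2 hab
    rw [← this]
    rfl
  have hm : (a ^ k * b ^ k)⁻¹ * (a * b) ^ k ∈ N := by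
    rw [← QuotientGroup.eq (s := N)]
    rw [QuotientGroup.mk_mul, QuotientGroup.mk_pow, QuotientGroup.mk_pow, QuotientGroup.mk_pow,
      QuotientGroup.mk_mul, hc.mul_pow]
  have h3 : φ ((a * b) ^ k) = φ (a ^ k * b ^ k) := by
    have e : (a * b) ^ k = (a ^ k * b ^ k) * ((a ^ k * b ^ k)⁻¹ * (a * b) ^ k) := by group
    rw [e]
    exact isVHom_mul_mem φ hh N hN h0 _ _ hm
  rw [h1, h2 _ (hkJ a) _ (hkJ b), h1, h1] at h3
  exact mul_left_cancel₀ (Nat.cast_ne_zero.2 hk.ne') (by rw [h3]; ring)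

lemma IsVHom.map_inv {φ : G → ℚ} (h : IsVHom φ) (g : G) : φ g⁻¹ = - φ g := by
  have := isVHom_comm φ h g g⁻¹ (by simp)
  rw [mul_inv_cancel, h.map_one] at this
  linarith

/-- extension from a finite index subgroup, with vanishing on a normal subgroup -/
lemma vextend (J : Subgroup G) (hJ : J.FiniteIndex) (φ : G → ℚ)
    (h : ∀ a ∈ J, ∀ b ∈ J, φ (a * b) = φ a + φ b) :
    ∃ ψ : G → ℚ, IsVHom ψ ∧ (∀ a ∈ J, ψ a = φ a) ∧
      ∀ N : Subgroup G, (∀ a ∈ J, a ∈ N → φ a = 0) → ∀ a ∈ N, ψ a = 0 := by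
  obtain ⟨ψ, h1, h2⟩ := isVHom_extend J hJ φ h
  refine ⟨ψ, h1, h2, fun N hN a ha => ?_⟩
  obtain ⟨k, hk, hkJ⟩ := exists_pow_mem_fi J hJ
  have h3 := h1.1 a k
  rw [h2 _ (hkJ a), hN _ (hkJ a) (N.pow_mem ha k)] at h3
  have hk' : (k : ℚ) ≠ 0 := Nat.cast_ne_zero.2 hk.ne'
  rcases mul_eq_zero.1 h3.symm with h4 | h4
  · exact absurd h4 hk'
  · exact h4

/-- two virtual homomorphisms (or a virtual homomorphism and a homogeneous function) agreeing
on a finite index subgroup -/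
lemma eq_of_pow {φ : G → ℚ} {r : ℚ} {g : G} {k : ℕ} (hk : 0 < k) (h : ∀ n : ℕ, φ (g ^ n) = n * φ g)
    (he : φ (g ^ k) = k * r) : φ g = r := by
  rw [h] at he
  exact mul_left_cancel₀ (Nat.cast_ne_zero.2 hk.ne') he

section family

variable {X : Type} (S : SelfSim G X)

/-- the elements fixing `v` with section in `J` -/
def secPre (v : List X) (J : Subgroup G) : Subgroup G := (J.comap (S.secHom v)).map (S.St v).subtype

lemma mem_secPre {v : List X} {J : Subgroup G} {g : G} :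
    g ∈ secPre S v J ↔ S.wact g v = v ∧ S.wsec g v ∈ J := by
  constructor
  · rintro ⟨⟨a, ha⟩, hk, rfl⟩
    exact ⟨ha, hk⟩
  · rintro ⟨h1, h2⟩
    exact ⟨⟨g, h1⟩, h2, rfl⟩

lemma secPre_fi {v : List X} (hSt : (S.St v).FiniteIndex) {J : Subgroup G} (hJ : J.FiniteIndex) :
    (secPre S v J).FiniteIndex := by
  constructor
  rw [secPre, Subgroup.index_map_subtype]
  apply mul_ne_zero _ hSt.index_ne_zero
  rw [Subgroup.index_comap]
  exact Subgroup.FiniteIndex.index_ne_zero (H := J.subgroupOf (S.secHom v).range)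

/-- the elements of the level stabiliser with all sections in `J` -/
def LStJ (n : ℕ) (J : Subgroup G) : Subgroup G where
  carrier := {g | g ∈ S.LSt n ∧ ∀ v : List X, v.length = n → S.wsec g v ∈ J}
  one_mem' := ⟨(S.LSt n).one_mem, fun v _ => by simp⟩
  mul_mem' := fun {a b} ha hb => ⟨(S.LSt n).mul_mem ha.1 hb.1, fun v hv => by
    rw [S.wsec_mul_of_LSt hb.1 hv]
    exact J.mul_mem (ha.2 v hv) (hb.2 v hv)⟩
  inv_mem' := fun {a} ha => ⟨(S.LSt n).inv_mem ha.1, fun v hv => by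
    rw [S.wsec_inv, (S.LSt n).inv_mem ha.1 v hv]
    exact J.inv_mem (ha.2 v hv)⟩

lemma mem_LStJ {n : ℕ} {J : Subgroup G} {g : G} :
    g ∈ LStJ S n J ↔ g ∈ S.LSt n ∧ ∀ v : List X, v.length = n → S.wsec g v ∈ J := Iff.rfl

lemma LStJ_normal {n : ℕ} {J : Subgroup G} (hJ : J.Normal) : (LStJ S n J).Normal := by
  constructor
  rintro a ⟨ha, ha2⟩ g
  refine ⟨(S.LSt_normal n).conj_mem a ha g, fun v hv => ?_⟩
  have h1 := S.wsec_conj g a (S.wact g⁻¹ v)
  rw [S.wact_wact_inv, ha _ (by simpa using hv)] at h1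
  rw [h1]
  exact hJ.conj_mem _ (ha2 _ (by simpa using hv)) _

lemma LStJ_fi [Fintype X] {n : ℕ} (hn : (S.LSt n).FiniteIndex) (hSt : ∀ v, (S.St v).FiniteIndex)
    {J : Subgroup G} (hJ : J.FiniteIndex) : (LStJ S n J).FiniteIndex := by
  have h1 : (⨅ v : List.Vector X n, secPre S v.toList J).FiniteIndex :=
    Subgroup.finiteIndex_iInf fun v => secPre_fi S (hSt _) hJ
  have h2 : (S.LSt n ⊓ ⨅ v : List.Vector X n, secPre S v.toList J).FiniteIndex := inferInstance
  refine Subgroup.finiteIndex_of_le (H := S.LSt n ⊓ ⨅ v : List.Vector X n, secPre S v.toList J) ?_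
  rintro g ⟨h3, h4⟩
  refine ⟨h3, fun v hv => ?_⟩
  have h5 := (Subgroup.mem_iInf.1 h4) ⟨v, hv⟩
  exact ((mem_secPre S).1 h5).2

/-- the action of `g` on families of functions -/
def tw (g : G) (ζ : List X → G → ℚ) : List X → G → ℚ :=
  fun v h => ζ (S.wact g⁻¹ v) (S.wsec g⁻¹ v * h * (S.wsec g⁻¹ v)⁻¹)

lemma tw_mul (g g' : G) (ζ : List X → G → ℚ) : tw S (g * g') ζ = tw S g (tw S g' ζ) := by
  funext v h
  simp only [tw]
  rw [mul_inv_rev, S.wact_mul, S.wsec_mul]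
  congr 1
  group

lemma tw_isVHom {ζ : List X → G → ℚ} {n : ℕ} (hζ : ∀ v, v.length = n → IsVHom (ζ v)) (g : G) {v : List X}
    (hv : v.length = n) : IsVHom (tw S g ζ v) := by
  have h := isVHom_conj _ (hζ (S.wact g⁻¹ v) (by simpa using hv)) (S.wsec g⁻¹ v)⁻¹
  simp only [inv_inv] at h
  exact h

lemma tw_sum [Fintype X] (ζ : List X → G → ℚ) (n : ℕ) (g h : G) (hh : h ∈ S.LSt n) :
    ∑ v ∈ lev X n, tw S g ζ v (S.wsec h v) = ∑ v ∈ lev X n, ζ v (S.wsec (g⁻¹ * h * g) v) := by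
  apply Finset.sum_bij (fun v _ => S.wact g⁻¹ v)
  · intro v hv
    rw [mem_lev] at hv ⊢
    simpa using hv
  · intro u _ v _ huv
    exact S.wact_injective _ huv
  · intro v hv
    rw [mem_lev] at hv
    refine ⟨S.wact g v, by rw [mem_lev]; simpa using hv, by simp⟩
  · intro v hv
    rw [mem_lev] at hv
    simp only [tw]
    congr 1
    have h1 := S.wsec_conj g⁻¹ h v
    rw [inv_inv, hh v hv] at h1
    exact h1.symm

/-- elements of a finite index subgroup act trivially on a family -/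
lemma tw_triv [Fintype X] (n : ℕ) (hn : (S.LSt n).FiniteIndex) (hSt : ∀ v, (S.St v).FiniteIndex)
    (ζ : List X → G → ℚ) (hζ : ∀ v, v.length = n → IsVHom (ζ v)) :
    ∃ L₀ : Subgroup G, L₀.FiniteIndex ∧
      ∀ g ∈ L₀, ∀ v : List X, v.length = n → ∀ h, tw S g ζ v h = ζ v h := by
  choose J hJn hJf hJ using fun v : List.Vector X n => isVHom_conj_eq (ζ v.toList) (hζ _ v.2)
  have h1 : (⨅ v : List.Vector X n, J v).FiniteIndex := Subgroup.finiteIndex_iInf hJf
  refine ⟨LStJ S n (⨅ v : List.Vector X n, J v), LStJ_fi S hn hSt h1, fun g hg v hv h => ?_⟩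
  have hg' := (LStJ S n (⨅ v : List.Vector X n, J v)).inv_mem hg
  simp only [tw]
  rw [hg'.1 v hv]
  have h2 : (S.wsec g⁻¹ v)⁻¹ ∈ J ⟨v, hv⟩ :=
    (J ⟨v, hv⟩).inv_mem ((Subgroup.mem_iInf.1 (hg'.2 v hv)) ⟨v, hv⟩)
  have h3 := hJ ⟨v, hv⟩ _ h2 h
  rw [inv_inv] at h3
  exact h3

/-- averaging over a subgroup -/
theorem average [Fintype X] (n : ℕ) (hn : (S.LSt n).FiniteIndex) (hSt : ∀ v, (S.St v).FiniteIndex)
    (L : Subgroup G) (ζ : List X → G → ℚ) (hζ : ∀ v, v.length = n → IsVHom (ζ v)) :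
    ∃ ζ' : List X → G → ℚ, (∀ v, v.length = n → IsVHom (ζ' v)) ∧
      (∀ γ ∈ L, ∀ v : List X, v.length = n → ∀ h,
        ζ' (S.wact γ v) h = ζ' v ((S.wsec γ v)⁻¹ * h * S.wsec γ v)) ∧
      (∀ v : List X, ∀ h r, (∀ γ ∈ L, tw S γ ζ v h = r) → ζ' v h = r) ∧
      (∀ h ∈ S.LSt n, ∀ r, (∀ γ ∈ L, ∑ v ∈ lev X n, ζ v (S.wsec (γ⁻¹ * h * γ) v) = r) →
        ∑ v ∈ lev X n, ζ' v (S.wsec h v) = r) := by
  classical
  obtain ⟨L₀, hL₀, hfix⟩ := tw_triv S n hn hSt ζ hζ
  have hfi : (L₀.subgroupOf L).FiniteIndex := inferInstance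
  let _ : Fintype (L ⧸ L₀.subgroupOf L) := Subgroup.fintypeQuotientOfFiniteIndex
  set Q := L ⧸ L₀.subgroupOf L with hQ
  have hr : ((Fintype.card Q : ℕ) : ℚ) ≠ 0 := by
    have : Nonempty Q := ⟨QuotientGroup.mk 1⟩
    exact Nat.cast_ne_zero.2 Fintype.card_ne_zero
  set r : ℚ := ((Fintype.card Q : ℕ) : ℚ) with hrdef
  set ζ' : List X → G → ℚ := fun v h => r⁻¹ * ∑ q : Q, tw S ((Quotient.out q : L) : G) ζ v h with hζ'
  have hconst : ∀ (c : ℚ), r⁻¹ * ∑ _q : Q, c = c := by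
    intro c
    rw [Finset.sum_const, Finset.card_univ, nsmul_eq_mul, ← hrdef]
    field_simp
  have hinv : ∀ γ ∈ L, ∀ v : List X, v.length = n → ∀ h, tw S γ ζ' v h = ζ' v h := by
    intro γ hγ v hv h
    have e1 : tw S γ ζ' v h = r⁻¹ * ∑ q : Q, tw S (γ * ((Quotient.out q : L) : G)) ζ v h := by
      simp only [hζ', tw]
      congr 1
      apply Finset.sum_congr rfl
      intro q _
      rw [mul_inv_rev, S.wact_mul, S.wsec_mul]
      congr 1
      group
    rw [e1]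
    simp only [hζ']
    congr 1
    let γ' : L := ⟨γ, hγ⟩
    have e2 : ∀ q : Q, tw S (γ * ((Quotient.out q : L) : G)) ζ v h =
        tw S ((Quotient.out (γ' • q) : L) : G) ζ v h := by
      intro q
      have h1 : ((Quotient.out (γ' • q) : L))⁻¹ * (γ' * (Quotient.out q : L)) ∈ L₀.subgroupOf L := by
        rw [← QuotientGroup.eq (s := L₀.subgroupOf L)]
        have a1 : (QuotientGroup.mk (Quotient.out (γ' • q)) : Q) = γ' • q := Quotient.out_eq' _
        have a2 : (QuotientGroup.mk (γ' * Quotient.out q) : Q) = γ' • (QuotientGroup.mk (Quotient.out q) : Q) := rfl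
        have a3 : (QuotientGroup.mk (Quotient.out q) : Q) = q := Quotient.out_eq' _
        rw [a1, a2, a3]
      have h2 : (((Quotient.out (γ' • q) : L))⁻¹ * (γ' * (Quotient.out q : L)) : L).1 ∈ L₀ := h1
      set a := ((Quotient.out (γ' • q) : L) : G) with ha
      set b := ((Quotient.out q : L) : G) with hb
      have h3 : a⁻¹ * (γ * b) ∈ L₀ := h2
      have e3 : γ * b = a * (a⁻¹ * (γ * b)) := by group
      rw [e3, tw_mul]
      show tw S (a⁻¹ * (γ * b)) ζ (S.wact a⁻¹ v) _ = ζ (S.wact a⁻¹ v) _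
      exact hfix _ h3 _ (by simpa using hv) _
    rw [Finset.sum_congr rfl fun q _ => e2 q]
    exact (MulAction.bijective γ').sum_comp (fun q : Q => tw S ((Quotient.out q : L) : G) ζ v h)
  refine ⟨ζ', ?_, ?_, ?_, ?_⟩
  · intro v hv
    exact isVHom_smul _ _ (isVHom_sum _ _ fun q _ => tw_isVHom S hζ _ hv)
  · intro γ hγ v hv h
    have h1 := hinv γ hγ (S.wact γ v) (by simpa using hv) h
    rw [← h1]
    simp only [tw]
    rw [S.wact_inv_wact, S.wsec_inv, S.wact_inv_wact, inv_inv]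
  · intro v h c hc
    simp only [hζ']
    rw [← hconst c]
    congr 1
    exact Finset.sum_congr rfl fun q _ => hc _ (Quotient.out q : L).2
  · intro h hh c hc
    simp only [hζ']
    rw [← Finset.mul_sum, Finset.sum_comm, ← hconst c]
    congr 1
    apply Finset.sum_congr rfl
    intro q _
    rw [tw_sum S ζ n _ h hh, hc _ (Quotient.out q : L).2]

end family

end PCF
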