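import Pool.Agent.Work.MP_80ff4e_al_91.Common
import Pool.Agent.Work.MP_80ff4e_al_helper21.VT

/-!
Blocks C8a, C9.
-/

set_option autoImplicit false

namespace PCF

open scoped commutatorElement

/-- the facts of `C0` used here, in structured form -/
structure CF {G X : Type} [Group G] [Fintype X] (S : SelfSim G X) : Prop where
  rep : ∀ (w : List X) (g : G), ∃ h, S.wact h w = w ∧ S.wsec h w = g
  faith : ∀ g n, g ∈ S.LSt n → (∀ w : List X, w.length = n → S.wsec g w = 1) → g = 1
  lfi : ∀ n, (S.LSt n).FiniteIndex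
  sfi : ∀ w, (S.St w).FiniteIndex
  secn : ∀ (M : Subgroup G), M.Normal → ∀ w, (S.secSub M w).Normal
  sece : ∀ (M : Subgroup G), M.Normal → ∀ u v : List X, u.length = v.length →
      S.secSub M u = S.secSub M v
  seca : ∀ (M : Subgroup G) (w u), S.secSub M (w ++ u) = S.secSub (S.secSub M w) u
  secf : ∀ (M : Subgroup G) (w), M.FiniteIndex → (S.secSub M w).FiniteIndex
  nn : ∀ n, (S.N n).Normal
  nanti : ∀ n, S.N (n + 1) ≤ S.N n
  auniq : ∀ k k' v h, S.IsAt k v h → S.IsAt k' v h → k = k'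
  acomm : ∀ k k' v v' h h', v.length = v'.length → v ≠ v' → S.IsAt k v h → S.IsAt k' v' h' →
      k * k' = k' * k
  aconj : ∀ g k v h, S.IsAt k v h →
    S.IsAt (g * k * g⁻¹) (S.wact g v) (S.wsec g v * h * (S.wsec g v)⁻¹)
  aapp : ∀ k v u h h', S.IsAt k v h' → S.IsAt h' u h → S.IsAt k (v ++ u) h
  aapp' : ∀ k v u h, S.IsAt k (v ++ u) h → ∃ h', S.IsAt k v h' ∧ S.IsAt h' u h
  nadd : ∀ m n h, h ∈ S.N (m + n) ↔ h ∈ S.N m ∧
      ∀ (v : List X) (k : G), v.length = m → S.IsAt k v h → k ∈ S.N n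
  nex : ∀ n h, h ∈ S.N n ↔ ∃ (v : List X) (k : G), v.length = n ∧ S.IsAt k v h
  rist : ∀ k v, k ∈ S.Rist v ↔ ∃ h, S.IsAt k v h
  two_le : 2 ≤ Fintype.card X

lemma Core.cf (hC0 : Stmt_C0) {G X : Type} [Group G] [Fintype X] {S : SelfSim G X} (hS : Core S) :
    CF S := by
  obtain ⟨a1, a2, -, -, a5, a6, a7, a8, a9, a10, a11, a12, a13, a14, a15, a16, a17, a18, a19, a20, -⟩ :=
    hC0 G X S hS.two_le hS.faithful hS.selfrep hS.levTrans
  exact ⟨a1, a2, a5, a6, a7, a8, a9, a10, a11, a12, a13, a14, a15, a16, a17, a18, a19, a20, hS.two_le⟩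

variable {G X : Type} [Group G] [Fintype X] {S : SelfSim G X}

namespace CF

variable (h : CF S)

include h

lemma nle {m n : ℕ} (hmn : m ≤ n) : S.N n ≤ S.N m := by
  induction hmn with
  | refl => exact le_rfl
  | step _ ih => exact (h.nanti _).trans ih

/-- a power of any element lies in the level stabiliser -/
lemma pow_lst (n : ℕ) : ∃ k : ℕ, 0 < k ∧ ∀ g : G, g ^ k ∈ S.LSt n := exists_pow_mem_fi _ (h.lfi n)

end CF

omit [Fintype X] in
/-- sections of powers -/
lemma wsec_pow {g : G} {v : List X} (hg : S.wact g v = v) (k : ℕ) : S.wsec (g ^ k) v = S.wsec g v ^ k ∧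
    S.wact (g ^ k) v = v := by
  induction k with
  | zero => simp
  | succ k ih =>
    rw [pow_succ, S.wsec_mul, S.wact_mul, hg, ih.1, ih.2, pow_succ]
    exact ⟨rfl, rfl⟩

/-- to verify a relation it is enough to do it on a finite index subgroup -/
lemma rel_of_fi {k : ℕ} {ζ : List X → G → ℚ} (hζ : ∀ v, v.length = k → IsVHom (ζ v)) (J : Subgroup G)
    (hJ : J.FiniteIndex) (h : ∀ g ∈ S.LSt k, g ∈ J → ∑ w ∈ lev X k, ζ w (S.wsec g w) = 0)
    (g : G) (hg : g ∈ S.LSt k) : ∑ w ∈ lev X k, ζ w (S.wsec g w) = 0 := by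
  obtain ⟨e, he, heJ⟩ := exists_pow_mem_fi J hJ
  have h1 := h (g ^ e) ((S.LSt k).pow_mem hg e) (heJ g)
  have h2 : ∑ w ∈ lev X k, ζ w (S.wsec (g ^ e) w) = e * ∑ w ∈ lev X k, ζ w (S.wsec g w) := by
    rw [Finset.mul_sum]
    apply Finset.sum_congr rfl
    intro w hw
    rw [mem_lev] at hw
    rw [(wsec_pow (hg w hw) e).1, (hζ w hw).1]
  rw [h2] at h1
  rcases mul_eq_zero.1 h1 with h3 | h3
  · exact absurd h3 (Nat.cast_ne_zero.2 he.ne')
  · exact h3

lemma lev_zero : lev X 0 = {[]} := by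
  ext w
  rw [mem_lev, Finset.mem_singleton, List.length_eq_zero_iff]

lemma sum_lev_succ (n : ℕ) (f : List X → ℚ) :
    ∑ w ∈ lev X (n + 1), f w = ∑ x : X, ∑ v ∈ lev X n, f (x :: v) := by
  rw [← Finset.sum_product']
  symm
  apply Finset.sum_bij (fun (p : X × List X) _ => p.1 :: p.2)
  · rintro ⟨x, v⟩ hp
    rw [Finset.mem_product, mem_lev] at hp
    rw [mem_lev, List.length_cons, hp.2]
  · rintro ⟨x, v⟩ _ ⟨y, w⟩ _ hh
    simp only [List.cons.injEq] at hh
    rw [hh.1, hh.2]
  · intro w hw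
    rw [mem_lev] at hw
    cases w with
    | nil => simp at hw
    | cons x v =>
      refine ⟨(x, v), ?_, rfl⟩
      rw [Finset.mem_product, mem_lev]
      exact ⟨Finset.mem_univ _, by simpa using hw⟩
  · rintro ⟨x, v⟩ _
    rfl

omit [Fintype X] in
/-- a chain of subspaces of `Hom(G, ℚ)` for a finitely generated group is stationary -/
lemma hom_chain (hfg : Group.FG G) (N : ℕ → Subgroup G) (hN : ∀ n, N (n + 1) ≤ N n) :
    ∃ m₀, ∀ m ≥ m₀, ∀ φ : G → ℚ, (∀ a b, φ (a * b) = φ a + φ b) → (∀ h ∈ N m, φ h = 0) →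
      ∀ h ∈ N m₀, φ h = 0 := by
  classical
  obtain ⟨T, hT⟩ := hfg.out
  have hanti : Antitone N := antitone_nat_of_succ_le hN
  let U : ℕ →o Submodule ℚ (T → ℚ) :=
    { toFun := fun m =>
        { carrier := {x | ∃ φ : G → ℚ, (∀ a b, φ (a * b) = φ a + φ b) ∧ (∀ h ∈ N m, φ h = 0) ∧
            ∀ t : T, x t = φ t}
          add_mem' := by
            rintro x y ⟨φ, h1, h2, h3⟩ ⟨ψ, h4, h5, h6⟩
            refine ⟨fun g => φ g + ψ g, fun a b => ?_, fun h hh => ?_, fun t => ?_⟩
            · show φ (a * b) + ψ (a * b) = φ a + ψ a + (φ b + ψ b)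
              rw [h1, h4]; ring
            · show φ h + ψ h = 0
              rw [h2 h hh, h5 h hh, add_zero]
            · show x t + y t = φ t + ψ t
              rw [h3, h6]
          zero_mem' := ⟨fun _ => 0, fun _ _ => by simp, fun _ _ => rfl, fun _ => rfl⟩
          smul_mem' := by
            rintro c x ⟨φ, h1, h2, h3⟩
            refine ⟨fun g => c * φ g, fun a b => ?_, fun h hh => ?_, fun t => ?_⟩
            · show c * φ (a * b) = c * φ a + c * φ b
              rw [h1]; ring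
            · show c * φ h = 0
              rw [h2 h hh, mul_zero]
            · show c * x t = c * φ t
              rw [h3] }
      monotone' := by
        rintro m n hmn x ⟨φ, h1, h2, h3⟩
        exact ⟨φ, h1, fun h hh => h2 h (hanti hmn hh), h3⟩ }
  obtain ⟨m₀, hm₀⟩ := (monotone_stabilizes_iff_noetherian (R := ℚ) (M := T → ℚ)).2 inferInstance U
  refine ⟨m₀, fun m hm φ h1 h2 h hh => ?_⟩
  have h3 : (fun t : T => φ t) ∈ U m := ⟨φ, h1, h2, fun _ => rfl⟩
  rw [← hm₀ m hm] at h3
  obtain ⟨ψ, h4, h5, h6⟩ := h3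
  have hone : ∀ χ : G → ℚ, (∀ a b, χ (a * b) = χ a + χ b) → χ 1 = 0 ∧ ∀ a, χ a⁻¹ = - χ a := by
    intro χ hχ
    have e1 : χ 1 = 0 := by
      have := hχ 1 1
      rw [mul_one] at this
      linarith
    refine ⟨e1, fun a => ?_⟩
    have := hχ a a⁻¹
    rw [mul_inv_cancel, e1] at this
    linarith
  have h7 : ∀ g : G, φ g = ψ g := by
    intro g
    have hg : g ∈ Subgroup.closure (T : Set G) := by rw [hT]; trivial
    induction hg using Subgroup.closure_induction with
    | mem x hx => exact h6 ⟨x, hx⟩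
    | one => rw [(hone φ h1).1, (hone ψ h4).1]
    | mul a b _ _ ha hb => rw [h1, h4, ha, hb]
    | inv a _ ha => rw [(hone φ h1).2, (hone ψ h4).2, ha]
  rw [h7]
  exact h5 h hh

/-- BLOCK C8a -/
theorem stmt_C8a (hC0 : Stmt_C0) (hC7 : Stmt_C7) : Stmt_C8a := by
  intro G X _ _ S hS
  have cf := hS.cf hC0
  obtain ⟨m₁, hm₁⟩ := hC7 G X S hS
  obtain ⟨m₂, hm₂⟩ := hom_chain hS.fg S.N cf.nanti
  refine ⟨max m₁ m₂, fun m φ hφ h0 h hh => ?_⟩
  -- descent
  have key : ∀ m, max m₁ m₂ ≤ m → (∀ h ∈ S.N (m + 1), φ h = 0) → ∀ h ∈ S.N m, φ h = 0 := by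
    intro m hm h0 h hh
    have hinv := (hm₁ m (le_trans (le_max_left _ _) hm)).1 φ
      (isVHom_comap (S.N m).subtype φ hφ) h0
    obtain ⟨ζ', hV, hI, hA, -⟩ := average S 0 (cf.lfi 0) cf.sfi ⊤ (fun _ => φ) (fun _ _ => hφ)
    have htw : ∀ (γ h : G), tw S γ (fun _ => φ) [] h = φ (γ⁻¹ * h * γ) := by
      intro γ h
      simp [tw]
    have hhom : ∀ a b, ζ' [] (a * b) = ζ' [] a + ζ' [] b := by
      apply isVHom_inv _ (hV [] rfl)
      intro g x
      have := hI g trivial [] rfl x
      simpa using this.symm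
    have hkill : ∀ k ∈ S.N (m + 1), ζ' [] k = 0 := by
      intro k hk
      apply hA
      intro γ _
      rw [htw]
      apply h0
      have := (cf.nn (m + 1)).conj_mem k hk γ⁻¹
      simpa using this
    have hkill2 := hm₂ (m + 1) (by have := le_max_right m₁ m₂; omega) (ζ' []) hhom hkill h
      (cf.nle (le_trans (le_max_right _ _) hm) hh)
    have : ζ' [] h = φ h := by
      apply hA
      intro γ _
      rw [htw]
      have := hinv γ⁻¹ h hh
      rwa [inv_inv] at this
    rw [← this, hkill2]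
  by_cases hm : m ≤ max m₁ m₂
  · exact h0 h (cf.nle hm hh)
  · push Not at hm
    obtain ⟨d, rfl⟩ := Nat.exists_eq_add_of_le hm.le
    clear hm
    induction d with
    | zero => exact h0 h hh
    | succ d ih => exact ih (key _ (by omega) h0)

/-- BLOCK C9 -/
theorem stmt_C9 (hC0 : Stmt_C0) (hC3 : Stmt_C3) (hC5 : Stmt_C5) : Stmt_C9 := by
  classical
  intro G X _ _ S hS
  have cf := hS.cf hC0
  obtain ⟨-, δ, hδ⟩ := (hC3 G X S hS).1 (S.N 1) (cf.nn 1) (hC5 G X S hS 1)
  refine ⟨δ, ?_⟩
  -- one step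
  have step : ∀ (k : ℕ) (ζ : List X → G → ℚ), δ ≤ k → Rel S (k + 1) ζ → ∀ x : X,
      Rel S k (fun v => ζ (x :: v)) := by
    intro k ζ hk hR x₀
    obtain ⟨hV, hrel⟩ := hR
    -- averages
    choose E hEV hEI hEA hES using fun x : X =>
      average S (k + 1) (cf.lfi _) cf.sfi (S.Rist [x]) ζ (fun v _ => hV v)
    -- outside of `x` nothing changes
    have hout : ∀ (x y : X) (v : List X) (h : G), y ≠ x → E x (y :: v) h = ζ (y :: v) h := by
      intro x y v h hyx
      apply hEA
      intro γ hγ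
      obtain ⟨g, hg⟩ := (cf.rist γ [x]).1 hγ
      have hi := hg.inv
      have e1 : S.wact γ⁻¹ [y] = [y] := hi.1 [y] rfl
      have e2 : S.wsec γ⁻¹ [y] = 1 := hi.2.2 [y] rfl (by simpa using hyx)
      have e3 : S.wact γ⁻¹ (y :: v) = y :: v := by
        rw [show y :: v = [y] ++ v from rfl, S.wact_append, e1, e2, S.wact_one]
      have e4 : S.wsec γ⁻¹ (y :: v) = 1 := by
        rw [show y :: v = [y] ++ v from rfl, S.wsec_append, e2, S.wsec_one]
      simp only [tw]
      rw [e3, e4]
      simp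
    -- the average is a relation
    have hErel : ∀ (x : X), ∀ g ∈ S.LSt (k + 1), ∑ w ∈ lev X (k + 1), E x w (S.wsec g w) = 0 := by
      intro x g hg
      apply hES x g hg
      intro γ _
      apply hrel
      have := (S.LSt_normal (k + 1)).conj_mem g hg γ⁻¹
      simpa using this
    -- below `x` the average consists of homomorphisms
    have hEhom : ∀ (x : X) (v : List X), v.length = k → ∀ a b,
        E x (x :: v) (a * b) = E x (x :: v) a + E x (x :: v) b := by
      intro x v hv
      apply isVHom_inv _ (hEV x (x :: v) (by simp [hv]))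
      intro g h
      have hg : g ∈ S.secSub (S.N 1) v := by rw [hδ v (by omega)]; trivial
      obtain ⟨g', hg', h1, h2⟩ := S.mem_secSub.1 hg
      obtain ⟨γ, hγ⟩ := hg' [x] rfl
      have hγR : γ ∈ S.Rist [x] := (cf.rist γ [x]).2 ⟨g', hγ⟩
      have e1 : S.wact γ (x :: v) = x :: v := by
        rw [show x :: v = [x] ++ v from rfl, S.wact_append, hγ.1 [x] rfl, hγ.2.1, h1]
      have e2 : S.wsec γ (x :: v) = g := by
        rw [show x :: v = [x] ++ v from rfl, S.wsec_append, hγ.2.1, h2]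
      have := hEI x γ hγR (x :: v) (by simp [hv]) h
      rw [e1, e2] at this
      exact this.symm
    -- differences
    have hdiff : ∀ (x : X), ∀ g ∈ S.LSt (k + 1),
        ∑ v ∈ lev X k, ζ (x :: v) (S.wsec g (x :: v)) = ∑ v ∈ lev X k, E x (x :: v) (S.wsec g (x :: v)) := by
      intro x g hg
      have h1 := hrel g hg
      have h2 := hErel x g hg
      rw [sum_lev_succ] at h1 h2
      rw [← Finset.add_sum_erase _ _ (Finset.mem_univ x)] at h1 h2
      have h3 : ∑ y ∈ Finset.univ.erase x, ∑ v ∈ lev X k, E x (y :: v) (S.wsec g (y :: v)) =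
          ∑ y ∈ Finset.univ.erase x, ∑ v ∈ lev X k, ζ (y :: v) (S.wsec g (y :: v)) := by
        apply Finset.sum_congr rfl
        intro y hy
        apply Finset.sum_congr rfl
        intro v _
        exact hout x y v _ (Finset.ne_of_mem_erase hy)
      rw [h3] at h2
      linarith
    -- the homomorphisms vanish
    have hzero : ∀ (x : X) (v : List X), v.length = k → ∀ g, E x (x :: v) g = 0 := by
      let F : List X → G → ℚ := fun w g => match w with
        | [] => 0
        | x :: v => if v.length = k then E x (x :: v) g else 0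
      have hF : ∀ w a b, F w (a * b) = F w a + F w b := by
        intro w a b
        cases w with
        | nil => simp [F]
        | cons x v =>
          simp only [F]
          split_ifs with hv
          · exact hEhom x v hv a b
          · simp
      have hFs : ∀ g ∈ S.LSt (k + 1), ∑ w ∈ lev X (k + 1), F w (S.wsec g w) = 0 := by
        intro g hg
        rw [sum_lev_succ, ← hrel g hg, sum_lev_succ]
        apply Finset.sum_congr rfl
        intro x _
        rw [hdiff x g hg]
        apply Finset.sum_congr rfl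
        intro v hv
        rw [mem_lev] at hv
        simp only [F, hv, if_true]
      intro x v hv g
      have := hS.tf (k + 1) F hF hFs (x :: v) (by simp [hv]) g
      simpa only [F, hv, if_true] using this
    refine ⟨fun v => hV _, ?_⟩
    intro h hh
    obtain ⟨g, hg1, hg2⟩ := cf.rep [x₀] h
    obtain ⟨e, he, hpow⟩ := cf.pow_lst (k + 1)
    have h1 := hdiff x₀ (g ^ e) (hpow g)
    have h2 : ∑ v ∈ lev X k, E x₀ (x₀ :: v) (S.wsec (g ^ e) (x₀ :: v)) = 0 := by
      apply Finset.sum_eq_zero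
      intro v hv
      rw [mem_lev] at hv
      exact hzero x₀ v hv _
    rw [h2] at h1
    have h3 : ∑ v ∈ lev X k, ζ (x₀ :: v) (S.wsec (g ^ e) (x₀ :: v)) =
        e * ∑ v ∈ lev X k, ζ (x₀ :: v) (S.wsec h v) := by
      rw [Finset.mul_sum]
      apply Finset.sum_congr rfl
      intro v hv
      rw [mem_lev] at hv
      have e1 : S.wact g (x₀ :: v) = x₀ :: v := by
        rw [show x₀ :: v = [x₀] ++ v from rfl, S.wact_append, hg1, hg2, hh v hv]
      have e2 : S.wsec g (x₀ :: v) = S.wsec h v := by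
        rw [show x₀ :: v = [x₀] ++ v from rfl, S.wsec_append, hg2]
      rw [(wsec_pow e1 e).1, e2, (hV _).1]
    rw [h3] at h1
    rcases mul_eq_zero.1 h1 with h4 | h4
    · exact absurd h4 (Nat.cast_ne_zero.2 he.ne')
    · exact h4
  intro n
  induction n with
  | zero =>
    intro ζ hR w hw
    have : w = [] := List.length_eq_zero_iff.1 hw
    subst this
    simpa using hR
  | succ n ih =>
    intro ζ hR w hw
    cases w with
    | nil => simp at hw
    | cons x w =>
      have h1 : Rel S (n + δ) (fun v => ζ (x :: v)) := by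
        apply step (n + δ) ζ (by omega)
        rw [show n + δ + 1 = n + 1 + δ by ring]
        exact hR
      exact ih _ h1 w (by simpa using hw)

end PCF
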