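import Pool.Agent.Work.MP_80ff4e_al_helper21.GT
import Pool.Agent.Work.MP_80ff4e_al_helper21.C8a

/-!
Products of elements `h @ v` and the decomposition of additive functions.
-/

set_option autoImplicit false

namespace PCF

open scoped commutatorElement

variable {G X : Type} [Group G] [Fintype X] {S : SelfSim G X}

lemma sum_lev_add (m n : ℕ) (f : List X → ℚ) :
    ∑ w ∈ lev X (m + n), f w = ∑ v ∈ lev X m, ∑ u ∈ lev X n, f (v ++ u) := by
  rw [← Finset.sum_product']
  symm
  apply Finset.sum_bij (fun (p : List X × List X) _ => p.1 ++ p.2)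
  · rintro ⟨x, v⟩ hp
    rw [Finset.mem_product, mem_lev, mem_lev] at hp
    rw [mem_lev, List.length_append, hp.1, hp.2]
  · rintro ⟨x, v⟩ hp ⟨y, w⟩ hp' hh
    rw [Finset.mem_product, mem_lev, mem_lev] at hp hp'
    obtain ⟨h1, h2⟩ := List.append_inj hh (by rw [hp.1, hp'.1])
    exact Prod.ext h1 h2
  · intro w hw
    rw [mem_lev] at hw
    refine ⟨(w.take m, w.drop m), ?_, List.take_append_drop m w⟩
    rw [Finset.mem_product, mem_lev, mem_lev, List.length_take, List.length_drop]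
    omega
  · rintro ⟨x, v⟩ _
    rfl

lemma sum_lev_vec (n : ℕ) (f : List X → ℚ) :
    ∑ w ∈ lev X n, f w = ∑ v : List.Vector X n, f v.toList := by
  rw [lev, Finset.sum_map]
  rfl

/-- product of elements `y v @ v` -/
lemma prod_at (cf : CF S) (n : ℕ) (y k : List X → G) (M : Subgroup G)
    (hk : ∀ v : List X, v.length = n → S.IsAt (k v) v (y v)) (hkM : ∀ v : List X, v.length = n → k v ∈ M)
    (s : Finset (List X)) (hs : ∀ v ∈ s, v.length = n) :
    ∃ z ∈ M, z ∈ S.LSt n ∧ (∀ v ∈ s, S.wsec z v = y v) ∧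
      (∀ v : List X, v.length = n → v ∉ s → S.wsec z v = 1) ∧
      ∀ φ : G → ℚ, (∀ a ∈ M, ∀ b ∈ M, a * b = b * a → φ (a * b) = φ a + φ b) →
        φ z = ∑ v ∈ s, φ (k v) := by
  classical
  induction s using Finset.induction_on with
  | empty =>
    refine ⟨1, M.one_mem, (S.LSt n).one_mem, by simp, by simp, fun φ hφ => ?_⟩
    have := hφ 1 M.one_mem 1 M.one_mem rfl
    rw [mul_one] at this
    simp
    linarith
  | insert v₀ s hv₀ ih =>
    obtain ⟨z, hz1, hz2, hz3, hz4, hz5⟩ := ih fun v hv => hs v (Finset.mem_insert_of_mem hv)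
    have hl := hs v₀ (Finset.mem_insert_self _ _)
    have hk0 := hk v₀ hl
    have hkL : k v₀ ∈ S.LSt n := by
      have := hk0.1
      rwa [hl] at this
    have hsec : ∀ v : List X, v.length = n → S.wsec (z * k v₀) v = S.wsec z v * S.wsec (k v₀) v :=
      fun v hv => S.wsec_mul_of_LSt hkL hv
    have hout : ∀ v : List X, v.length = n → v ≠ v₀ → S.wsec (k v₀) v = 1 := fun v hv hne =>
      hk0.2.2 v (by rw [hv, hl]) hne
    have hcomm : z * k v₀ = k v₀ * z := by
      have h1 : (z * k v₀) * (k v₀ * z)⁻¹ = 1 := by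
        apply cf.faith _ n
        · exact (S.LSt n).mul_mem ((S.LSt n).mul_mem hz2 hkL) ((S.LSt n).inv_mem ((S.LSt n).mul_mem hkL hz2))
        · intro v hv
          have h2 : k v₀ * z ∈ S.LSt n := (S.LSt n).mul_mem hkL hz2
          rw [S.wsec_mul_of_LSt ((S.LSt n).inv_mem h2) hv, S.wsec_inv, (S.LSt n).inv_mem h2 v hv,
            hsec v hv, S.wsec_mul_of_LSt hz2 hv]
          by_cases hvv : v = v₀
          · subst hvv
            rw [hz4 v hv hv₀]
            simp
          · rw [hout v hv hvv]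
            simp
      exact mul_inv_eq_one.1 h1
    refine ⟨z * k v₀, M.mul_mem hz1 (hkM _ hl), (S.LSt n).mul_mem hz2 hkL, ?_, ?_, ?_⟩
    · intro v hv
      rw [Finset.mem_insert] at hv
      rcases hv with rfl | hv
      · rw [hsec v hl, hz4 v hl hv₀, hk0.2.1, one_mul]
      · have hvl := hs v (Finset.mem_insert_of_mem hv)
        rw [hsec v hvl, hz3 v hv, hout v hvl (fun h => hv₀ (h ▸ hv)), mul_one]
    · intro v hv hvs
      rw [Finset.mem_insert, not_or] at hvs
      rw [hsec v hv, hz4 v hv hvs.2, hout v hv hvs.1, mul_one]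
    · intro φ hφ
      rw [Finset.sum_insert hv₀, hφ z hz1 _ (hkM _ hl) hcomm, hz5 φ hφ, add_comm]

/-- elements with all sections in `N (n + m)` -/
lemma mem_N_of_sec (cf : CF S) (m n : ℕ) {y : G} (hy : y ∈ S.LSt n)
    (h : ∀ v : List X, v.length = n → S.wsec y v ∈ S.N (n + m)) : y ∈ S.N m := by
  classical
  have h1 : ∀ v : List X, v.length = n → ∃ k, S.IsAt k v (S.wsec y v) ∧ k ∈ S.N m := by
    intro v hv
    obtain ⟨h2, h3⟩ := (cf.nadd n m _).1 (h v hv)
    obtain ⟨k, hk⟩ := h2 v hv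
    exact ⟨k, hk, h3 v k hv hk⟩
  choose! k hk hkN using h1
  obtain ⟨z, hz1, hz2, hz3, -, -⟩ := prod_at cf n (fun v => S.wsec y v) k (S.N m) hk hkN (lev X n)
    (fun v hv => mem_lev.1 hv)
  have : y * z⁻¹ = 1 := by
    apply cf.faith _ n ((S.LSt n).mul_mem hy ((S.LSt n).inv_mem hz2))
    intro v hv
    rw [S.wsec_mul_of_LSt ((S.LSt n).inv_mem hz2) hv, S.wsec_inv, (S.LSt n).inv_mem hz2 v hv,
      hz3 v (mem_lev.2 hv)]
    simp
  rw [mul_inv_eq_one.1 this]
  exact hz1

/-- decomposition of an additive function -/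
theorem decomp (cf : CF S) (c m n : ℕ) (J J' : Subgroup G) (hJ' : gam J' (c + 1) ≤ S.N (m + n))
    (lam : G → ℚ) (h1 : AddOn (gam J c) lam) (h2 : ∀ x ∈ gam J c, x ∈ S.N m → lam x = 0) :
    ∃ mu : List X → G → ℚ, (∀ v : List X, AddOn (gam J' c) (mu v)) ∧
      (∀ v : List X, ∀ a ∈ gam J' c, a ∈ S.N (m + n) → mu v a = 0) ∧
      ∀ y ∈ gam (J ⊓ LStJ S n J') c, lam y = ∑ v ∈ lev X n, mu v (S.wsec y v) := by
  classical
  set A := J ⊓ LStJ S n J' with hA
  have hAL : A ≤ S.LSt n := fun a ha => ha.2.1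
  have hAs : ∀ v : List X, v.length = n → ∀ a ∈ A, S.wsec a v ∈ J' := fun v hv a ha => ha.2.2 v hv
  have hAJ : gam A c ≤ gam J c := GT.gam_mono inf_le_left c
  have hgL : gam A c ≤ S.LSt n := (D2.gam_le A c).trans hAL
  have : (S.N (m + n)).Normal := cf.nn _
  obtain ⟨mu, hmu1, hmu2, hmu3⟩ := GT.ext_family (ι := List.Vector X n) (gam A c) (gam J' c) (S.N (m + n))
    ((Subgroup.commutator_mono le_rfl (D2.gam_le J' c)).trans hJ') (fun v y => S.wsec y v.toList)
    (fun v a _ b hb => S.wsec_mul_of_LSt (hgL hb) v.2)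
    (fun v a ha => GT.wsec_gam S hAL v.2 (hAs _ v.2) c a ha) lam (h1.mono hAJ) (by
      intro a ha hak
      apply h2 a (hAJ ha)
      apply mem_N_of_sec cf m n (hgL ha)
      intro v hv
      rw [add_comm]
      exact hak ⟨v, hv⟩)
  refine ⟨fun v g => if h : v.length = n then mu ⟨v, h⟩ g else 0, ?_, ?_, ?_⟩
  · intro v a ha b hb
    by_cases h : v.length = n
    · simp only [h, dif_pos]
      exact hmu1 _ a ha b hb
    · simp only [h, dif_neg, not_false_eq_true, add_zero]
  · intro v a ha haN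
    by_cases h : v.length = n
    · simp only [h, dif_pos]
      exact hmu2 _ a ha haN
    · simp only [h, dif_neg, not_false_eq_true]
  · intro y hy
    rw [hmu3 y hy, sum_lev_vec]
    apply Finset.sum_congr rfl
    intro v _
    have hv : v.toList.length = n := v.2
    simp only [hv, dif_pos]
    rfl

end PCF
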