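import Pool.Agent.Work.MP_80ff4e_al_helper21.VT
import Pool.Agent.Work.MP_80ff4e_al_helper82.D1
import Pool.Agent.Work.MP_80ff4e_al_helper82.D2

/-!
Tools on additive functions on the terms of a lower central series.
-/

set_option autoImplicit false

namespace PCF

open scoped commutatorElement

variable {G : Type} [Group G]

/-- `f` is additive on `M` -/
def AddOn (M : Subgroup G) (f : G → ℚ) : Prop := ∀ a ∈ M, ∀ b ∈ M, f (a * b) = f a + f b

lemma AddOn.mono {M M' : Subgroup G} {f : G → ℚ} (h : AddOn M f) (hM : M' ≤ M) : AddOn M' f :=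
  fun a ha b hb => h a (hM ha) b (hM hb)

lemma AddOn.one {M : Subgroup G} {f : G → ℚ} (h : AddOn M f) : f 1 = 0 := (vadd_pow h).1

lemma AddOn.inv {M : Subgroup G} {f : G → ℚ} (h : AddOn M f) {a : G} (ha : a ∈ M) : f a⁻¹ = - f a :=
  (vadd_pow h).2.1 a ha

lemma AddOn.pow {M : Subgroup G} {f : G → ℚ} (h : AddOn M f) {a : G} (ha : a ∈ M) (n : ℕ) :
    f (a ^ n) = n * f a := (vadd_pow h).2.2 a ha n

namespace GT

variable {J : Subgroup G} {lam : G → ℚ} {i : ℕ}

lemma comm_left (x y a : G) : ⁅x * y, a⁆ = ⁅x, ⁅y, a⁆⁆ * (⁅y, a⁆ * ⁅x, a⁆) := by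
  simp only [commutatorElement_def]; group

lemma comm_right (x a b : G) : ⁅x, a * b⁆ = ⁅x, a⁆ * (⁅a, ⁅x, b⁆⁆ * ⁅x, b⁆) := by
  simp only [commutatorElement_def]; group

lemma comm_left_mem {x y : G} (hx : x ∈ J) (hy : y ∈ gam J i) : ⁅x, y⁆ ∈ gam J (i + 1) := by
  rw [← commutatorElement_inv]
  exact (gam J (i + 1)).inv_mem (D2.comm_mem_gam hy hx)

lemma step (h1 : AddOn (gam J (i + 1)) lam) (h2 : ∀ x ∈ gam J (i + 2), lam x = 0) {a : G} (ha : a ∈ J) :
    AddOn (gam J i) (fun x => lam ⁅x, a⁆) ∧ ∀ x ∈ gam J (i + 1), lam ⁅x, a⁆ = 0 := by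
  refine ⟨fun x hx y hy => ?_, fun x hx => h2 _ (D2.comm_mem_gam hx ha)⟩
  show lam ⁅x * y, a⁆ = lam ⁅x, a⁆ + lam ⁅y, a⁆
  have hxa := D2.comm_mem_gam hx ha
  have hya := D2.comm_mem_gam hy ha
  have h3 : ⁅x, ⁅y, a⁆⁆ ∈ gam J (i + 2) := comm_left_mem (D2.gam_le J i hx) hya
  rw [comm_left, h1 _ (D2.gam_succ_le J _ h3) _ ((gam J (i + 1)).mul_mem hya hxa), h2 _ h3,
    h1 _ hya _ hxa]
  ring

lemma right (h1 : AddOn (gam J (i + 1)) lam) (h2 : ∀ x ∈ gam J (i + 2), lam x = 0) {x : G}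
    (hx : x ∈ gam J i) : AddOn J (fun a => lam ⁅x, a⁆) := by
  intro a ha b hb
  show lam ⁅x, a * b⁆ = lam ⁅x, a⁆ + lam ⁅x, b⁆
  have hxa := D2.comm_mem_gam hx ha
  have hxb := D2.comm_mem_gam hx hb
  have h3 : ⁅a, ⁅x, b⁆⁆ ∈ gam J (i + 2) := comm_left_mem ha hxb
  rw [comm_right, h1 _ hxa _ ((gam J (i + 1)).mul_mem (D2.gam_succ_le J _ h3) hxb),
    h1 _ (D2.gam_succ_le J _ h3) _ hxb, h2 _ h3]
  ring

lemma gam_induct (J : Subgroup G) (i : ℕ) {p : G → Prop} (hmem : ∀ x ∈ gam J i, ∀ a ∈ J, p ⁅x, a⁆)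
    (hone : p 1) (hmul : ∀ x ∈ gam J (i + 1), ∀ y ∈ gam J (i + 1), p x → p y → p (x * y))
    (hinv : ∀ x ∈ gam J (i + 1), p x → p x⁻¹) : ∀ x ∈ gam J (i + 1), p x := by
  intro x hx
  have hx' : x ∈ ⁅gam J i, J⁆ := hx
  clear hx
  have : x ∈ gam J (i + 1) ∧ p x := by
    rw [Subgroup.commutator_def] at hx'
    induction hx' using Subgroup.closure_induction with
    | mem x hx =>
      obtain ⟨y, hy, a, ha, rfl⟩ := hx
      exact ⟨D2.comm_mem_gam hy ha, hmem y hy a ha⟩
    | one => exact ⟨(gam J (i + 1)).one_mem, hone⟩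
    | mul a b _ _ ha hb => exact ⟨(gam J (i + 1)).mul_mem ha.1 hb.1, hmul _ ha.1 _ hb.1 ha.2 hb.2⟩
    | inv a _ ha => exact ⟨(gam J (i + 1)).inv_mem ha.1, hinv _ ha.1 ha.2⟩
  exact this.2

lemma zero_of_gen (h1 : AddOn (gam J (i + 1)) lam)
    (h : ∀ x ∈ gam J i, ∀ a ∈ J, lam ⁅x, a⁆ = 0) : ∀ x ∈ gam J (i + 1), lam x = 0 := by
  refine gam_induct J i (p := fun x => lam x = 0) h h1.one ?_ ?_
  · intro x hx y hy hx0 hy0
    rw [h1 _ hx _ hy, hx0, hy0, add_zero]
  · intro x hx hx0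
    rw [h1.inv hx, hx0, neg_zero]

lemma gam_mono {S J : Subgroup G} (h : S ≤ J) (i : ℕ) : gam S i ≤ gam J i := by
  induction i with
  | zero => exact h
  | succ i ih => exact Subgroup.commutator_mono ih h

/-- multi-additivity: vanishing on a finite index subgroup implies vanishing -/
lemma zero_of_fi {S J : Subgroup G} (hS : S ≤ J) {e : ℕ} (he : 0 < e) (hpow : ∀ a ∈ J, a ^ e ∈ S) :
    ∀ (i : ℕ) (lam : G → ℚ), AddOn (gam J i) lam → (∀ x ∈ gam J (i + 1), lam x = 0) →
      (∀ x ∈ gam S i, lam x = 0) → ∀ x ∈ gam J i, lam x = 0 := by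
  have he' : (e : ℚ) ≠ 0 := Nat.cast_ne_zero.2 he.ne'
  intro i
  induction i with
  | zero =>
    intro lam h1 _ h3 x hx
    have h4 := h1.pow hx e
    rw [h3 _ (hpow x hx)] at h4
    rcases mul_eq_zero.1 h4.symm with h5 | h5
    · exact absurd h5 he'
    · exact h5
  | succ i ih =>
    intro lam h1 h2 h3
    apply zero_of_gen h1
    intro x hx a ha
    have key : ∀ b ∈ S, ∀ x ∈ gam J i, lam ⁅x, b⁆ = 0 := by
      intro b hb
      obtain ⟨h4, h5⟩ := step h1 h2 (hS hb)
      exact ih (fun x => lam ⁅x, b⁆) h4 h5 (fun x hx => h3 _ (D2.comm_mem_gam hx hb))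
    have h6 := (right h1 h2 hx).pow ha e
    rw [key _ (hpow a ha) x hx] at h6
    rcases mul_eq_zero.1 h6.symm with h5 | h5
    · exact absurd h5 he'
    · exact h5

/-- left normed commutators -/
def lc (g : G) (L : List G) : G := L.foldl (fun x a => ⁅x, a⁆) g

@[simp] lemma lc_nil (g : G) : lc g [] = g := rfl

@[simp] lemma lc_concat (g : G) (L : List G) (a : G) : lc g (L ++ [a]) = ⁅lc g L, a⁆ := by
  simp [lc, List.foldl_append]

lemma lc_mem {J : Subgroup G} {g : G} (hg : g ∈ J) (L : List G) (hL : ∀ a ∈ L, a ∈ J) :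
    lc g L ∈ gam J L.length := by
  induction L using List.reverseRecOn with
  | nil => exact hg
  | append_singleton L a ih =>
    rw [lc_concat, List.length_append]
    exact D2.comm_mem_gam (ih fun b hb => hL b (by simp [hb])) (hL a (by simp))

lemma zero_of_lc (J : Subgroup G) : ∀ (i : ℕ) (lam : G → ℚ), AddOn (gam J i) lam →
    (∀ x ∈ gam J (i + 1), lam x = 0) →
    (∀ g ∈ J, ∀ L : List G, L.length = i → (∀ a ∈ L, a ∈ J) → lam (lc g L) = 0) →
    ∀ x ∈ gam J i, lam x = 0 := by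
  intro i
  induction i with
  | zero =>
    intro lam _ _ h3 x hx
    exact h3 x hx [] rfl (by simp)
  | succ i ih =>
    intro lam h1 h2 h3
    apply zero_of_gen h1
    intro x hx a ha
    obtain ⟨h4, h5⟩ := step h1 h2 ha
    refine ih (fun x => lam ⁅x, a⁆) h4 h5 (fun g hg L hL hL2 => ?_) x hx
    have h6 := h3 g hg (L ++ [a]) (by simp [hL]) (by
      intro b hb
      rw [List.mem_append, List.mem_singleton] at hb
      rcases hb with hb | hb
      · exact hL2 b hb
      · rw [hb]; exact ha)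
    rwa [lc_concat] at h6

lemma lc_add (J : Subgroup G) : ∀ (i : ℕ) (lam : G → ℚ), AddOn (gam J i) lam →
    (∀ x ∈ gam J (i + 1), lam x = 0) → ∀ L : List G, L.length = i → (∀ a ∈ L, a ∈ J) →
    AddOn J (fun g => lam (lc g L)) := by
  intro i
  induction i with
  | zero =>
    intro lam h1 _ L hL _
    have : L = [] := List.length_eq_zero_iff.1 hL
    subst this
    exact h1
  | succ i ih =>
    intro lam h1 h2 L hL hL2
    rcases List.eq_nil_or_concat L with rfl | ⟨L', a, rfl⟩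
    · simp at hL
    · obtain ⟨h4, h5⟩ := step h1 h2 (hL2 a (by simp))
      have h6 := ih (fun x => lam ⁅x, a⁆) h4 h5 L' (by simpa using hL) (fun b hb => hL2 b (by simp [hb]))
      simpa only [List.concat_eq_append, lc_concat] using h6

/-! ### quotients -/

/-- the image of `M` in `G ⧸ N` is commutative -/
@[reducible] def commOf (M N : Subgroup G) [N.Normal] (h : ⁅M, M⁆ ≤ N) :
    CommGroup ↥(M.map (QuotientGroup.mk' N)) :=
  { (inferInstance : Group ↥(M.map (QuotientGroup.mk' N))) with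
    mul_comm := by
      rintro ⟨x, a, ha, rfl⟩ ⟨y, b, hb, rfl⟩
      apply Subtype.ext
      show (QuotientGroup.mk' N a) * (QuotientGroup.mk' N b) = (QuotientGroup.mk' N b) * (QuotientGroup.mk' N a)
      rw [← map_mul, ← map_mul, QuotientGroup.mk'_apply, QuotientGroup.mk'_apply, QuotientGroup.eq]
      have : (a * b)⁻¹ * (b * a) = ⁅b⁻¹, a⁻¹⁆ := by simp only [commutatorElement_def]; group
      rw [this]
      exact h (Subgroup.commutator_mem_commutator (M.inv_mem hb) (M.inv_mem ha)) }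

/-- extension of an additive function through finitely many coordinates -/
theorem ext_family {ι : Type} [Fintype ι] (Y M N : Subgroup G) [N.Normal] (hMN : ⁅M, M⁆ ≤ N)
    (s : ι → G → G) (hs : ∀ i, ∀ a ∈ Y, ∀ b ∈ Y, s i (a * b) = s i a * s i b)
    (hsM : ∀ i, ∀ a ∈ Y, s i a ∈ M) (lam : G → ℚ) (hlam : AddOn Y lam)
    (hk : ∀ a ∈ Y, (∀ i, s i a ∈ N) → lam a = 0) :
    ∃ mu : ι → G → ℚ, (∀ i, AddOn M (mu i)) ∧ (∀ i, ∀ a ∈ M, a ∈ N → mu i a = 0) ∧
      ∀ y ∈ Y, lam y = ∑ i, mu i (s i y) := by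
  classical
  let _ := commOf M N hMN
  set A := Additive ↥(M.map (QuotientGroup.mk' N)) with hA
  let q : (x : G) → x ∈ M → A := fun x hx =>
    Additive.ofMul (⟨QuotientGroup.mk' N x, x, hx, rfl⟩ : ↥(M.map (QuotientGroup.mk' N)))
  have hq : ∀ x hx y hy, q (x * y) (M.mul_mem hx hy) = q x hx + q y hy := by
    intro x hx y hy
    rfl
  have hq0 : ∀ x hx, q x hx = 0 ↔ x ∈ N := by
    intro x hx
    rw [← QuotientGroup.eq_one_iff (N := N) x]
    constructor
    · intro h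
      have h1 : (⟨QuotientGroup.mk' N x, x, hx, rfl⟩ : ↥(M.map (QuotientGroup.mk' N))) = 1 := h
      exact congrArg Subtype.val h1
    · intro h
      show (Additive.ofMul (⟨QuotientGroup.mk' N x, x, hx, rfl⟩ : ↥(M.map (QuotientGroup.mk' N))) : A) = Additive.ofMul 1
      congr 1
      exact Subtype.ext h
  let Ψ : Additive Y →+ (ι → A) := AddMonoidHom.mk' (fun y i => q (s i (Additive.toMul y : Y)) (hsM i _ (Additive.toMul y : Y).2)) (by
    intro a b
    funext i
    have e := hs i _ (Additive.toMul a : Y).2 _ (Additive.toMul b : Y).2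
    have h3 : ∀ (z : G) (hz : z ∈ M) (w : G) (hw : w ∈ M), z = w → q z hz = q w hw := by
      rintro z hz w hw rfl
      rfl
    refine (h3 _ (hsM i _ (Y.mul_mem (Additive.toMul a : Y).2 (Additive.toMul b : Y).2)) _ (M.mul_mem (hsM i _ (Additive.toMul a : Y).2) (hsM i _ (Additive.toMul b : Y).2)) e).trans ?_
    exact hq _ (hsM i _ (Additive.toMul a : Y).2) _ (hsM i _ (Additive.toMul b : Y).2))
  let L : Additive Y →+ ℚ := AddMonoidHom.mk' (fun y => lam (Additive.toMul y : Y)) (by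
    intro a b
    exact hlam _ (Additive.toMul a : Y).2 _ (Additive.toMul b : Y).2)
  have hker : Ψ.rangeRestrict.ker ≤ L.ker := by
    intro y hy
    rw [AddMonoidHom.mem_ker] at hy ⊢
    apply hk _ (Additive.toMul y : Y).2
    intro i
    rw [← hq0 _ (hsM i _ (Additive.toMul y : Y).2)]
    have := congrArg Subtype.val hy
    exact congrFun this i
  let φ : Ψ.range →+ ℚ := (AddMonoidHom.liftOfSurjective Ψ.rangeRestrict Ψ.rangeRestrict_surjective) ⟨L, hker⟩
  obtain ⟨ψ, hψ⟩ := stmt_D4 (ι → A) Ψ.range φ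
  have hφ : ∀ y : Additive Y, φ (Ψ.rangeRestrict y) = L y := by
    intro y
    exact AddMonoidHom.liftOfRightInverse_comp_apply _ _ _ _ _
  refine ⟨fun i x => if h : x ∈ M then ψ (Pi.single i (q x h)) else 0, ?_, ?_, ?_⟩
  · intro i a ha b hb
    show (if h : a * b ∈ M then ψ (Pi.single i (q (a * b) h)) else 0) =
      (if h : a ∈ M then ψ (Pi.single i (q a h)) else 0) + (if h : b ∈ M then ψ (Pi.single i (q b h)) else 0)
    rw [dif_pos ha, dif_pos hb, dif_pos (M.mul_mem ha hb), hq _ ha _ hb, Pi.single_add, map_add]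
  · intro i a ha haN
    show (if h : a ∈ M then ψ (Pi.single i (q a h)) else 0) = 0
    rw [dif_pos ha, (hq0 a ha).2 haN, Pi.single_zero, map_zero]
  · intro y hy
    have h1 : ∀ i, (if h : s i y ∈ M then ψ (Pi.single i (q (s i y) h)) else 0) =
        ψ (Pi.single i (q (s i y) (hsM i y hy))) := fun i => dif_pos (hsM i y hy)
    show lam y = ∑ i, (if h : s i y ∈ M then ψ (Pi.single i (q (s i y) h)) else 0)
    rw [Finset.sum_congr rfl fun i _ => h1 i, ← map_sum]
    have h2 : ∑ i, (Pi.single i (q (s i y) (hsM i y hy)) : ι → A) =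
        Ψ (Additive.ofMul (⟨y, hy⟩ : Y)) := by
      exact Finset.univ_sum_single (Ψ (Additive.ofMul (⟨y, hy⟩ : Y)))
    rw [h2]
    have h3 := hψ (Ψ.rangeRestrict (Additive.ofMul (⟨y, hy⟩ : Y)))
    have h4 := hφ (Additive.ofMul (⟨y, hy⟩ : Y))
    rw [h4] at h3
    exact h3.symm

/-- if all additive functions vanish then the quotient is finite -/
theorem fin_quot {J : Subgroup G} (hJ : J.FG) (i : ℕ) (N : Subgroup G) [hN : N.Normal]
    (hJN : gam J (i + 1) ≤ N)
    (h : ∀ lam : G → ℚ, AddOn (gam J i) lam → (∀ x ∈ gam J i, x ∈ N → lam x = 0) →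
      ∀ x ∈ gam J i, lam x = 0) : N.relIndex (gam J i) ≠ 0 := by
  classical
  set M := gam J i with hM
  have hMN : ⁅M, M⁆ ≤ N := (Subgroup.commutator_mono le_rfl (D2.gam_le J i)).trans hJN
  let _ := commOf M N hMN
  set A := Additive ↥(M.map (QuotientGroup.mk' N)) with hA
  let f : M →* ↥(M.map (QuotientGroup.mk' N)) :=
    { toFun := fun x => ⟨QuotientGroup.mk' N x, x, x.2, rfl⟩
      map_one' := rfl
      map_mul' := fun _ _ => rfl }
  have hf : Function.Surjective f := by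
    rintro ⟨x, a, ha, rfl⟩
    exact ⟨⟨a, ha⟩, rfl⟩
  obtain ⟨T, hT, hgen⟩ := D2.gam_fg J hJ i
  -- finitely generated
  have hfg : Group.FG ↥(M.map (QuotientGroup.mk' N)) := by
    rw [Group.fg_iff_subgroup_fg]
    refine ⟨T.image (QuotientGroup.mk' N), ?_⟩
    apply le_antisymm
    · rw [Subgroup.closure_le]
      intro x hx
      rw [Finset.coe_image] at hx
      obtain ⟨t, ht, rfl⟩ := hx
      exact ⟨t, hT t ht, rfl⟩
    · rintro _ ⟨a, ha, rfl⟩
      have h1 := hgen ha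
      rw [Finset.coe_image, ← MonoidHom.map_closure]
      have h2 : QuotientGroup.mk' N a ∈ (Subgroup.closure (T : Set G) ⊔ gam J (i + 1)).map (QuotientGroup.mk' N) :=
        ⟨a, h1, rfl⟩
      rw [Subgroup.map_sup] at h2
      have h3 : (gam J (i + 1)).map (QuotientGroup.mk' N) = ⊥ := by
        rw [eq_bot_iff]
        rintro _ ⟨x, hx, rfl⟩
        rw [Subgroup.mem_bot, QuotientGroup.mk'_apply, QuotientGroup.eq_one_iff]
        exact hJN hx
      rwa [h3, sup_bot_eq] at h2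
  have hfgA : AddGroup.FG A := by
    rw [← GroupFG.iff_add_fg]
    exact hfg
  have htor : IsAddTorsion A := by
    intro a
    obtain ⟨n, hn, hna⟩ := stmt_D3 A hfgA a (by
      intro φ
      obtain ⟨x, hx⟩ := hf (Additive.toMul a)
      let lam : G → ℚ := fun g => if hg : g ∈ M then φ (Additive.ofMul (f ⟨g, hg⟩)) else 0
      have h1 : AddOn M lam := by
        intro u hu v hv
        simp only [lam, dif_pos hu, dif_pos hv, dif_pos (M.mul_mem hu hv)]
        rw [← map_add]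
        rfl
      have h2 : ∀ x ∈ M, x ∈ N → lam x = 0 := by
        intro u hu huN
        simp only [lam, dif_pos hu]
        have : f ⟨u, hu⟩ = 1 := Subtype.ext ((QuotientGroup.eq_one_iff u).2 huN)
        rw [this]
        exact map_zero φ
      have h3 := h lam h1 h2 x x.2
      simp only [lam, dif_pos x.2] at h3
      have : Additive.ofMul (f ⟨x, x.2⟩) = a := by
        rw [show (⟨(x : G), x.2⟩ : M) = x from rfl, hx]
        rfl
      rwa [this] at h3)
    exact isOfFinAddOrder_iff_nsmul_eq_zero.2 ⟨n, hn, hna⟩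
  have hfin : Finite A := AddCommGroup.finite_of_fg_isAddTorsion A htor
  have hfin' : Finite ↥(M.map (QuotientGroup.mk' N)) := hfin
  have hker : f.ker = N.subgroupOf M := by
    ext x
    rw [MonoidHom.mem_ker, Subgroup.mem_subgroupOf]
    constructor
    · intro hx
      exact (QuotientGroup.eq_one_iff (x : G)).1 (congrArg Subtype.val hx)
    · intro hx
      exact Subtype.ext ((QuotientGroup.eq_one_iff (x : G)).2 hx)
  show (N.subgroupOf M).index ≠ 0
  rw [← hker, Subgroup.index_ker]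
  have : Finite f.range := inferInstance
  exact Nat.card_pos.ne'

/-- a finite index subgroup with smaller class -/
theorem cent_fi {J : Subgroup G} (hJ : J.FG) (hJf : J.FiniteIndex) (i : ℕ) (N : Subgroup G)
    [hN : N.Normal] (hJN : gam J (i + 2) ≤ N) (hfin : N.relIndex (gam J (i + 1)) ≠ 0) :
    ∃ J' : Subgroup G, J'.Normal ∧ J'.FiniteIndex ∧ gam J' (i + 1) ≤ N := by
  classical
  obtain ⟨T, hT, hgen⟩ := D2.gam_fg J hJ i
  -- the homomorphisms `a ↦ [t, a]`
  have hfinW : Finite ↥((gam J (i + 1)).map (QuotientGroup.mk' N)) := by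
    have h1 : (N.subgroupOf (gam J (i + 1))).FiniteIndex := ⟨hfin⟩
    let f : gam J (i + 1) →* ↥((gam J (i + 1)).map (QuotientGroup.mk' N)) :=
      { toFun := fun x => ⟨QuotientGroup.mk' N x, x, x.2, rfl⟩
        map_one' := rfl
        map_mul' := fun _ _ => rfl }
    have hf : Function.Surjective f := by
      rintro ⟨x, a, ha, rfl⟩
      exact ⟨⟨a, ha⟩, rfl⟩
    have hker : N.subgroupOf (gam J (i + 1)) ≤ f.ker := by
      intro x hx
      exact Subtype.ext ((QuotientGroup.eq_one_iff (x : G)).2 hx)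
    have h2 : f.ker.FiniteIndex := Subgroup.finiteIndex_of_le hker
    have h3 : Finite (gam J (i + 1) ⧸ f.ker) := Subgroup.finite_quotient_of_finiteIndex
    exact Finite.of_equiv _ (QuotientGroup.quotientKerEquivOfSurjective f hf).toEquiv
  have hC : ∀ t ∈ gam J i, ∃ C : Subgroup G, C.FiniteIndex ∧ ∀ a ∈ C, ⁅t, a⁆ ∈ N := by
    intro t ht
    let f : J →* G ⧸ N := MonoidHom.mk' (fun a => ((⁅t, (a : G)⁆ : G) : G ⧸ N)) (by
      intro a b
      show ((⁅t, (a : G) * (b : G)⁆ : G) : G ⧸ N) = _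
      rw [comm_right, QuotientGroup.mk_mul, QuotientGroup.mk_mul]
      have h1 : (((⁅(a : G), ⁅t, (b : G)⁆⁆ : G)) : G ⧸ N) = 1 :=
        (QuotientGroup.eq_one_iff _).2 (hJN (comm_left_mem a.2 (D2.comm_mem_gam ht b.2)))
      rw [h1, one_mul])
    have hr : (f.range : Set (G ⧸ N)) ⊆ ((gam J (i + 1)).map (QuotientGroup.mk' N) : Subgroup (G ⧸ N)) := by
      rintro _ ⟨a, rfl⟩
      exact ⟨_, D2.comm_mem_gam ht a.2, rfl⟩
    have hfr : Finite f.range := Finite.Set.subset ((gam J (i + 1)).map (QuotientGroup.mk' N) : Set (G ⧸ N)) hr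
    have hk : f.ker.FiniteIndex := by
      constructor
      rw [Subgroup.index_ker]
      exact Nat.card_pos.ne'
    refine ⟨f.ker.map J.subtype, ⟨?_⟩, ?_⟩
    · rw [Subgroup.index_map_subtype]
      exact mul_ne_zero hk.index_ne_zero hJf.index_ne_zero
    · rintro _ ⟨a, ha, rfl⟩
      exact (QuotientGroup.eq_one_iff _).1 ha
  choose! C hCf hCN using hC
  let C0 : Subgroup G := ⨅ t : T, C t
  have hC0 : C0.FiniteIndex := Subgroup.finiteIndex_iInf fun t => hCf t (hT t t.2)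
  have hJC : (J ⊓ C0).FiniteIndex := inferInstance
  refine ⟨(J ⊓ C0).normalCore, inferInstance, inferInstance, ?_⟩
  have hle : (J ⊓ C0).normalCore ≤ J ⊓ C0 := Subgroup.normalCore_le _
  show ⁅gam (J ⊓ C0).normalCore i, (J ⊓ C0).normalCore⁆ ≤ N
  rw [Subgroup.commutator_le]
  intro x hx a ha
  have hx' : x ∈ gam J i := gam_mono (hle.trans inf_le_left) i hx
  have haJ : a ∈ J := (hle ha).1
  have haC : ∀ t ∈ T, ⁅t, a⁆ ∈ N := fun t ht =>
    hCN t (hT t ht) a ((Subgroup.mem_iInf.1 (hle ha).2) ⟨t, ht⟩)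
  -- the set of `x` with `[x,a] ∈ N` is a subgroup
  let Z : Subgroup G := (Subgroup.centralizer {(a : G ⧸ N)}).comap (QuotientGroup.mk' N)
  have hZ : ∀ y, y ∈ Z ↔ ⁅y, a⁆ ∈ N := by
    intro y
    rw [Subgroup.mem_comap, Subgroup.mem_centralizer_singleton_iff, ← QuotientGroup.eq_one_iff]
    have : ((⁅y, a⁆ : G) : G ⧸ N) = ⁅(y : G ⧸ N), (a : G ⧸ N)⁆ := rfl
    rw [this, commutatorElement_eq_one_iff_commute]
    constructor
    · intro h
      exact h
    · intro h
      exact h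
  have h1 : Subgroup.closure (T : Set G) ⊔ gam J (i + 1) ≤ Z := by
    apply sup_le
    · rw [Subgroup.closure_le]
      intro t ht
      exact (hZ t).2 (haC t ht)
    · intro y hy
      exact (hZ y).2 (hJN (D2.comm_mem_gam hy haJ))
  exact (hZ x).1 (h1 (hgen hx'))

/-! ### sections -/

variable {X : Type} (S : SelfSim G X)

lemma wsec_comm {n : ℕ} {x a : G} (hx : x ∈ S.LSt n) (ha : a ∈ S.LSt n) {v : List X} (hv : v.length = n) :
    S.wsec ⁅x, a⁆ v = ⁅S.wsec x v, S.wsec a v⁆ := by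
  have hx' := (S.LSt n).inv_mem hx
  have ha' := (S.LSt n).inv_mem ha
  rw [commutatorElement_def, S.wsec_mul_of_LSt ha' hv, S.wsec_mul_of_LSt hx' hv, S.wsec_mul_of_LSt ha hv,
    S.wsec_inv, S.wsec_inv, hx' v hv, ha' v hv, commutatorElement_def]

lemma wsec_gam {n : ℕ} {A A' : Subgroup G} (hA : A ≤ S.LSt n) {v : List X} (hv : v.length = n)
    (h : ∀ a ∈ A, S.wsec a v ∈ A') (i : ℕ) : ∀ y ∈ gam A i, S.wsec y v ∈ gam A' i := by
  induction i with
  | zero => exact h
  | succ i ih =>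
    have hle : ∀ j, gam A j ≤ S.LSt n := fun j => (D2.gam_le A j).trans hA
    refine gam_induct A i (p := fun y => S.wsec y v ∈ gam A' (i + 1)) ?_ (by simp) ?_ ?_
    · intro x hx a ha
      show S.wsec ⁅x, a⁆ v ∈ gam A' (i + 1)
      rw [wsec_comm S (hle i hx) (hA ha) hv]
      exact D2.comm_mem_gam (ih x hx) (h a ha)
    · intro x hx y hy h1 h2
      show S.wsec (x * y) v ∈ gam A' (i + 1)
      rw [S.wsec_mul_of_LSt (hle _ hy) hv]
      exact (gam A' (i + 1)).mul_mem h1 h2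
    · intro x hx h1
      show S.wsec x⁻¹ v ∈ gam A' (i + 1)
      rw [S.wsec_inv, (S.LSt n).inv_mem (hle _ hx) v hv]
      exact (gam A' (i + 1)).inv_mem h1

lemma gam_wsec_surj {n : ℕ} {A : Subgroup G} (hA : A ≤ S.LSt n) {v : List X} (hv : v.length = n) (i : ℕ) :
    ∀ z ∈ gam (S.secSub A v) i, ∃ y ∈ gam A i, S.wsec y v = z := by
  have hle : ∀ j, gam A j ≤ S.LSt n := fun j => (D2.gam_le A j).trans hA
  induction i with
  | zero =>
    intro z hz
    obtain ⟨g, hg, -, h2⟩ := S.mem_secSub.1 hz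
    exact ⟨g, hg, h2⟩
  | succ i ih =>
    refine gam_induct (S.secSub A v) i (p := fun z => ∃ y ∈ gam A (i + 1), S.wsec y v = z) ?_
      ⟨1, (gam A (i + 1)).one_mem, by simp⟩ ?_ ?_
    · intro x hx a ha
      obtain ⟨x', hx', rfl⟩ := ih x hx
      obtain ⟨a', ha', -, rfl⟩ := S.mem_secSub.1 ha
      exact ⟨⁅x', a'⁆, D2.comm_mem_gam hx' ha', wsec_comm S (hle _ hx') (hA ha') hv⟩
    · rintro _ - _ - ⟨x', hx', rfl⟩ ⟨y', hy', rfl⟩
      exact ⟨x' * y', (gam A (i + 1)).mul_mem hx' hy', S.wsec_mul_of_LSt (hle _ hy') hv⟩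
    · rintro _ - ⟨x', hx', rfl⟩
      refine ⟨x'⁻¹, (gam A (i + 1)).inv_mem hx', ?_⟩
      rw [S.wsec_inv, (S.LSt n).inv_mem (hle _ hx') v hv]

lemma wsec_lc {n : ℕ} {A : Subgroup G} (hA : A ≤ S.LSt n) {v : List X} (hv : v.length = n) {g : G}
    (hg : g ∈ A) (L : List G) (hL : ∀ a ∈ L, a ∈ A) :
    S.wsec (lc g L) v = lc (S.wsec g v) (L.map fun a => S.wsec a v) := by
  induction L using List.reverseRecOn with
  | nil => rfl
  | append_singleton L a ih =>
    have hL' : ∀ b ∈ L, b ∈ A := fun b hb => hL b (by simp [hb])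
    rw [List.map_append, List.map_singleton, lc_concat, lc_concat,
      wsec_comm S (hA (D2.gam_le A _ (lc_mem hg L hL'))) (hA (hL a (by simp))) hv, ih hL']

end GT

end PCF
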